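import Pool.Agent.P.MP_169bcc_al.BN.Spec
import Pool.Agent.P.MP_169bcc_al.BR.Chief

/-!
Package Chief, nilpotent quotient.
-/

noncomputable section

namespace Pool.Agent.P.MP_169bcc_al.BR

open ChiefP

theorem chief_tk : T_Chief := by
  intro p _ V _ _ _ _ G _ H t ρ Λ W E k ε hA hE hW hc hε hδ hcov
  let X : Submodule ℤ_[p] V :=
    { carrier := {v | ∃ w ∈ W, w ∈ Λ ∧ ∃ l ∈ Λ, v = w + p • l}
      zero_mem' := ⟨0, W.zero_mem, Λ.zero_mem, 0, Λ.zero_mem, by simp⟩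
      add_mem' := by
        rintro _ _ ⟨w, hw, hw', l, hl, rfl⟩ ⟨w₂, hw₂, hw₂', l₂, hl₂, rfl⟩
        exact ⟨w + w₂, W.add_mem hw hw₂, Λ.add_mem hw' hw₂', l + l₂, Λ.add_mem hl hl₂, by
          rw [smul_add]; abel⟩
      smul_mem' := by
        rintro c _ ⟨w, hw, hw', l, hl, rfl⟩
        exact ⟨c • w, W.smul_of_tower_mem c hw, Λ.smul_mem c hw', c • l, Λ.smul_mem c hl, by
          rw [smul_add, smul_comm c p l]⟩ }
  have hX : ∀ v ∈ X, v ∈ Λ := by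
    rintro _ ⟨w, -, hw', l, hl, rfl⟩
    exact Λ.add_mem hw' (nsmul_mem hl p)
  let S : Set (Submodule ℤ_[p] V) :=
    {N | (∀ a, ∀ v ∈ N, ρ a v ∈ N) ∧ (∀ e ∈ E, ∀ v ∈ N, e v ∈ N) ∧ N ≤ X}
  let N := sSup S
  have hNρ : ∀ a, ∀ v ∈ N, ρ a v ∈ N := fun a => sup_stab fun M hM => hM.1 a
  have hNE : ∀ e ∈ E, ∀ v ∈ N, e v ∈ N := fun e he => sup_stab fun M hM => hM.2.1 e he
  have hNX : N ≤ X := sSup_le fun M hM => hM.2.2
  have hp : ∀ v ∈ Λ, p • v ∈ N := by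
    have : Λ.map (p • LinearMap.id) ∈ S := by
      refine ⟨?_, ?_, ?_⟩
      · rintro a _ ⟨v, hv, rfl⟩
        exact ⟨ρ a v, hA.stab a v hv, (map_nsmul (ρ a) p v).symm⟩
      · rintro e he _ ⟨v, hv, rfl⟩
        exact ⟨e v, hE e he v hv, (map_nsmul e p v).symm⟩
      · rintro _ ⟨v, hv, rfl⟩
        exact ⟨0, W.zero_mem, Λ.zero_mem, v, hv, (zero_add _).symm⟩
    exact fun v hv => le_sSup this ⟨v, hv, rfl⟩
  let N₁ : Submodule ℤ_[p] V :=
    { carrier := {v | v ∈ Λ ∧ ∀ h ∈ H, ρ h v - v ∈ N}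
      zero_mem' := ⟨Λ.zero_mem, fun h _ => by simp⟩
      add_mem' := by
        rintro a b ⟨ha, ha'⟩ ⟨hb, hb'⟩
        refine ⟨Λ.add_mem ha hb, fun h hh => ?_⟩
        rw [map_add, add_sub_add_comm]
        exact N.add_mem (ha' h hh) (hb' h hh)
      smul_mem' := by
        rintro c a ⟨ha, ha'⟩
        refine ⟨Λ.smul_mem c ha, fun h hh => ?_⟩
        rw [LinearMap.map_smul_of_tower, ← smul_sub]
        exact N.smul_mem c (ha' h hh) }
  have h₁ρ : ∀ a, ∀ v ∈ N₁, ρ a v ∈ N₁ := by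
    rintro a v ⟨hv, hv'⟩
    refine ⟨hA.stab a v hv, fun h hh => ?_⟩
    have := hNρ a _ (hv' _ (hA.normal.conj_mem' h hh a))
    rwa [map_sub, rep_mul, rep_mul, rep_inv_right] at this
  have h₁E : ∀ e ∈ E, ∀ v ∈ N₁, e v ∈ N₁ := by
    rintro e he v ⟨hv, hv'⟩
    refine ⟨hE e he v hv, fun h hh => ?_⟩
    have := hNE e he _ (hv' h hh)
    rwa [map_sub, ← Module.End.mul_apply, hc e he h hh, Module.End.mul_apply] at this
  let F : ℕ → AddSubgroup V := fun i =>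
    { carrier := {v | ∃ u ∈ N₁, ρ (t i) u ∈ W ∧ v - u ∈ N}
      zero_mem' := ⟨0, N₁.zero_mem, by simp, by simp⟩
      add_mem' := by
        rintro a b ⟨u, hu, hu', h⟩ ⟨u₂, hu₂, hu₂', h₂⟩
        refine ⟨u + u₂, N₁.add_mem hu hu₂, by rw [map_add]; exact W.add_mem hu' hu₂', ?_⟩
        rw [add_sub_add_comm]
        exact N.add_mem h h₂
      neg_mem' := by
        rintro a ⟨u, hu, hu', h⟩
        refine ⟨-u, N₁.neg_mem hu, by rw [map_neg]; exact W.neg_mem hu', ?_⟩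
        rw [← neg_sub', neg_mem_iff]
        exact h }
  obtain ⟨i, -, hi⟩ := cover hε hδ N₁.toAddSubgroup h₁E F (by
    rintro i e he v ⟨u, hu, hu', h⟩
    refine ⟨e u, h₁E e he u hu, hW e he _ u hu', ?_⟩
    have := hNE e he _ h
    rwa [map_sub] at this) (Finset.range k) (Finset.card_range k).le (by
    intro v hv
    obtain ⟨i, hi, h, hh, e⟩ := hcov v
    refine ⟨i, Finset.mem_range.2 hi, ρ h v, h₁ρ h v hv, by rwa [rep_mul] at e, ?_⟩
    rw [← neg_sub, neg_mem_iff]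
    exact hv.2 h hh)
  have h₁X : N₁ ≤ X := fun v hv => by
    obtain ⟨u, hu, hu', h⟩ := hi (h₁ρ (t i)⁻¹ v hv)
    have h2 := hNX (hNρ (t i) _ h)
    rw [map_sub, rep_inv_right] at h2
    have h3 : ρ (t i) u ∈ X :=
      ⟨_, hu', hA.stab _ u hu.1, 0, Λ.zero_mem, by rw [smul_zero, add_zero]⟩
    simpa using X.add_mem h2 h3
  have hΛ : Λ ≤ N := by
    by_contra hn
    obtain ⟨v, hv, hv', h⟩ := fixv hA hNρ hp hn
    exact hv' (le_sSup (show N₁ ∈ S from ⟨h₁ρ, h₁E, h₁X⟩) ⟨hv, h⟩)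
  have key : ∀ m : ℕ, ∀ v ∈ Λ, ∃ w ∈ W, ∃ l ∈ Λ, v = w + p ^ m • l := by
    intro m
    induction m with
    | zero => exact fun v hv => ⟨0, W.zero_mem, v, hv, by simp⟩
    | succ m ih =>
      intro v hv
      obtain ⟨w, hw, l, hl, rfl⟩ := ih v hv
      obtain ⟨w₂, hw₂, -, l₂, hl₂, rfl⟩ := hNX (hΛ hl)
      exact ⟨w + p ^ m • w₂, W.add_mem hw (nsmul_mem hw₂ _), l₂, hl₂, by
        rw [smul_add, pow_succ, mul_smul, add_assoc]⟩
  exact hA.lat.eq_top fun v hv => clo hA.lat.fg fun m => key m v hv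

end Pool.Agent.P.MP_169bcc_al.BR
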