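import Pool.Agent.P.MP_169bcc_al.BN.Spec

/-!
Package Dec, nilpotent quotient.
-/

open scoped commutatorElement TensorProduct
open LieAlgebra LieSubalgebra Module

noncomputable section

namespace Pool.Agent.P.MP_169bcc_al.BR

namespace DecN

/-- The terms of the upper central series grow until they reach the whole group. -/
theorem lt_card (G : Type) [Group G] [Finite G] :
    ∀ i ≤ Group.nilpotencyClass G, i < Nat.card (Subgroup.upperCentralSeries G i)
  | 0, _ => Nat.card_pos
  | i + 1, hi => by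
    have h1 := lt_card G i (by omega)
    have h2 := Subgroup.upperCentralSeries.StrictMonoOn G (Set.mem_Iic.2 (by omega : i ≤ _))
      (Set.mem_Iic.2 hi) (Nat.lt_succ_self i)
    by_contra hc
    exact h2.ne (Subgroup.eq_of_le_of_card_ge h2.le (by omega))

theorem class_le (G : Type) [Group G] [Finite G] : Group.nilpotencyClass G ≤ Nat.card G :=
  (lt_card G _ le_rfl).le.trans (Subgroup.card_le_card_group _)

end DecN

theorem nq_tk : T_Nq := by
  intro A _ _ H _ hn
  refine ⟨fun i => (Subgroup.upperCentralSeries (A ⧸ H) i).comap (QuotientGroup.mk' H),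
    fun x hx => ?_, fun x => ?_, fun i x hx y => ?_⟩
  · exact (QuotientGroup.eq_one_iff x).1 (Subgroup.mem_bot.1 hx)
  · have h := Subgroup.upperCentralSeries_eq_top_iff_nilpotencyClass_le.2 (DecN.class_le (A ⧸ H))
    rw [Subgroup.mem_comap, Subgroup.index, h]
    trivial
  · rw [Subgroup.mem_comap, map_commutatorElement]
    exact Subgroup.mem_upperCentralSeries_succ_iff.1 hx _

theorem dec_tk : T_Dec := by
  intro p n hp hn
  have hm := Nat.coprime_ordCompl hp hn
  have hmul := Nat.ordProj_mul_ordCompl_eq_self n p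
  refine ⟨_, Nat.ordCompl_dvd n p, hm.symm, ?_⟩
  generalize n / p ^ n.factorization p = m at hm hmul
  intro c A _ _ H hH hP hi hq
  have := Fact.mk hp
  have hnil : Group.IsNilpotent (A ⧸ H) :=
    hq.nilpotent (QuotientGroup.mk' H) (QuotientGroup.mk'_surjective H)
      (QuotientGroup.ker_mk' H).ge
  let P : Sylow p (A ⧸ H) := default
  have hc : Nat.card (A ⧸ H) = n := hi
  have hcP : Nat.card P = p ^ n.factorization p := by rw [P.card_eq_multiplicity, hc]
  have hm0 : 0 < m := Nat.pos_of_ne_zero fun h => hn (by rw [← hmul, h, mul_zero])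
  have hPn : (P : Subgroup (A ⧸ H)).Normal := inferInstance
  have hN : ((P : Subgroup (A ⧸ H)).comap (QuotientGroup.mk' H)).Normal := hPn.comap _
  have hidx : ((P : Subgroup (A ⧸ H)).comap (QuotientGroup.mk' H)).index = m := by
    rw [Subgroup.index_comap_of_surjective _ (QuotientGroup.mk'_surjective H)]
    have h1 := (P : Subgroup (A ⧸ H)).card_mul_index
    rw [hcP, hc] at h1
    exact Nat.eq_of_mul_eq_mul_left (pow_pos hp.pos _) (h1.trans hmul.symm)
  have hpow : ∀ h ∈ (P : Subgroup (A ⧸ H)).comap (QuotientGroup.mk' H), h ^ p ^ n ∈ H := by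
    intro h hh
    have h1 : QuotientGroup.mk' H h ^ p ^ n.factorization p = 1 := by
      have := pow_card_eq_one' (x := (⟨_, hh⟩ : (P : Subgroup (A ⧸ H))))
      rw [hcP] at this
      exact congrArg Subtype.val this
    obtain ⟨t, ht⟩ := pow_dvd_pow p (Nat.factorization_lt p hn).le
    refine (QuotientGroup.eq_one_iff _).1 ?_
    change QuotientGroup.mk' H (h ^ p ^ n) = 1
    rw [map_pow, ht, pow_mul, h1, one_pow]
  refine ⟨_, ⟨hN, hq.mono fun x hx => ?_, fun a => ?_⟩, hpow⟩
  · rw [Subgroup.mem_comap, show QuotientGroup.mk' H x = 1 from (QuotientGroup.eq_one_iff x).2 hx]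
    exact Subgroup.one_mem _
  · have ha : a ^ m ∈ (P : Subgroup (A ⧸ H)).comap (QuotientGroup.mk' H) :=
      hidx ▸ Subgroup.pow_index_mem _ a
    obtain ⟨j, hj⟩ := hP ⟨_, hpow _ ha⟩
    have h1 : ((a ^ m) ^ p ^ n) ^ p ^ j = 1 := congrArg Subtype.val hj
    rw [← pow_mul, ← pow_add] at h1
    have h2 : (p ^ (n + j)) ^ m.totient ≡ 1 [MOD m] :=
      Nat.ModEq.pow_totient (Nat.Coprime.pow_left _ hm)
    have h3 : 1 ≤ (p ^ (n + j)) ^ m.totient := pow_pos (pow_pos hp.pos _) _
    obtain ⟨t, ht⟩ := (Nat.modEq_iff_dvd' h3).1 h2.symm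
    obtain ⟨u, hu⟩ := dvd_pow_self (p ^ (n + j)) (Nat.totient_pos.2 hm0).ne'
    refine ⟨(p ^ (n + j)) ^ m.totient, ?_, ?_⟩
    · rw [← pow_mul, mul_comm, pow_mul, hu, pow_mul, h1, one_pow]
    · rw [show (p ^ (n + j)) ^ m.totient = 1 + m * t by omega, pow_add, pow_one,
        inv_mul_cancel_left, pow_mul]
      exact Subgroup.pow_mem _ ha t

end Pool.Agent.P.MP_169bcc_al.BR
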