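import Pool.Agent.P.MP_169bcc_al.BN.Spec
import Pool.Agent.P.MP_169bcc_al.BR.Field

/-!
Package Eps, nilpotent quotient.
-/

open scoped commutatorElement TensorProduct
open LieAlgebra LieSubalgebra Module

noncomputable section

namespace Pool.Agent.P.MP_169bcc_al.BR

namespace EpsN

open FieldP

variable {F K G : Type} [Field F] [Field K] [Algebra F K] [Group G]

theorem exists_res {H : Subgroup G} (hH : H.Normal) (φ : G →* (K ≃ₐ[F] K)) :
    ∃ ψ : G →* (IntermediateField.fixedField (H.map φ) ≃ₐ[F]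
      IntermediateField.fixedField (H.map φ)), ∀ a x, (ψ a x : K) = φ a x := by
  let f : G → IntermediateField.fixedField (H.map φ) → IntermediateField.fixedField (H.map φ) :=
    fun a x => ⟨φ a x, fix_stab hH x.2 a⟩
  have h1 : ∀ a b x, a * b = 1 → f a (f b x) = x := fun a b x h => Subtype.ext (by
    show φ a (φ b x) = x
    rw [← aut_mul, h, map_one, AlgEquiv.one_apply])
  refine ⟨MonoidHom.mk' (fun a =>
    { toFun := f a
      invFun := f a⁻¹
      left_inv := fun x => h1 _ _ x (inv_mul_cancel a)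
      right_inv := fun x => h1 _ _ x (mul_inv_cancel a)
      map_mul' := fun x y => Subtype.ext (map_mul (φ a) (x : K) y)
      map_add' := fun x y => Subtype.ext (map_add (φ a) (x : K) y)
      commutes' := fun r => Subtype.ext ((φ a).commutes r) }) fun a b => ?_, fun _ _ => rfl⟩
  exact AlgEquiv.ext fun x => Subtype.ext (aut_mul φ a b x)

theorem cop {Γ : Type} [Group Γ] [Finite Γ] {n m : ℕ} (h : ∀ x : Γ, x ^ n = 1)
    (hm : n.Coprime m) : (Nat.card Γ).Coprime m :=
  Nat.coprime_of_dvd fun r hr h1 h2 => by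
    have : Fact r.Prime := ⟨hr⟩
    obtain ⟨x, hx⟩ := exists_prime_orderOf_dvd_card' r h1
    exact hr.one_lt.ne' (Nat.eq_one_of_dvd_coprimes hm (hx ▸ orderOf_dvd_of_pow_eq_one (h x)) h2)

end EpsN

open FieldP in
theorem eps_tk (h : T_Res) : T_Eps := by
  intro p _ n c K _ _ _ _ _ G _ H φ h6 hp hH hq hn
  obtain ⟨ψ, hψ⟩ := EpsN.exists_res hH φ
  have h1 : H ≤ ψ.rangeRestrict.ker := fun a ha =>
    Subtype.ext (AlgEquiv.ext fun x => Subtype.ext ((hψ a x).trans (mem_fix.1 x.2 a ha)))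
  have h2 : ∀ x : ψ.range, x ^ n = 1 := fun x => by
    obtain ⟨a, rfl⟩ := ψ.rangeRestrict_surjective x
    rw [← map_pow]
    exact h1 (hn a)
  obtain ⟨ε, e1, e2⟩ := h p _ ψ.range ψ.range.subtype ψ.range.subtype_injective
    (hq.nilpotent _ ψ.rangeRestrict_surjective h1) (EpsN.cop h2 h6) (EpsN.cop h2 hp)
  choose s hs using ψ.rangeRestrict_surjective
  let e := Finite.equivFin ψ.range
  have h3 : ∀ x : IntermediateField.fixedField (H.map φ), IsIntegral ℤ_[p] x →
      IsIntegral ℤ_[p] (x : K) := fun x hx =>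
    hx.map ((IntermediateField.fixedField (H.map φ)).val.restrictScalars ℤ_[p])
  refine ⟨Nat.card ψ.range, fun i => if hi : i < Nat.card ψ.range then s (e.symm ⟨i, hi⟩) else 1,
    fun i => ε i, fun a => ⟨e (ψ.rangeRestrict a), Fin.is_lt _, fun x hx => ?_⟩,
    fun i => ⟨mem_fix.1 (ε i).2, h3 _ (e1 i)⟩,
    fun i j hij => ⟨fun e => (e2 i j hij).1 (Subtype.ext e), h3 _ (e2 i j hij).2⟩⟩
  have h4 := congrArg Subtype.val (hs (ψ.rangeRestrict a))
  simp only [Fin.is_lt, dif_pos, Fin.eta, Equiv.symm_apply_apply]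
  rw [← hψ a ⟨x, mem_fix.2 hx⟩, ← hψ _ ⟨x, mem_fix.2 hx⟩]
  exact congrArg (fun τ => (τ ⟨x, mem_fix.2 hx⟩ : K)) h4.symm

end Pool.Agent.P.MP_169bcc_al.BR
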