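import Pool.Agent.P.MP_169bcc_al.BN.Spec
import Pool.Agent.P.MP_169bcc_al.BR.Field

/-!
Package Field, nilpotent quotient.
-/

open scoped commutatorElement TensorProduct
open LieAlgebra LieSubalgebra Module

noncomputable section

namespace Pool.Agent.P.MP_169bcc_al.BR

open FieldP in
theorem gal_tk (h : S_PG) : T_Gal := by
  intro p _ n V _ _ _ _ _ G _ H ρ Λ K _ _ _ ι φ σ hnp hA hι hpow hx c
  rcases subsingleton_or_nontrivial V with hV | hV
  · exact Subsingleton.elim _ _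
  have hinj : Function.Injective ι := ι.toRingHom.injective
  have hσ : φ σ ^ n = 1 := by rw [← map_pow, hpow, map_one]
  have hmem : φ σ ∈ H.map φ := by
    rw [← IntermediateField.fixingSubgroup_fixedField (H.map φ),
      IntermediateField.mem_fixingSubgroup_iff]
    intro x hx'
    exact hx x (mem_fix.1 hx')
  obtain ⟨g, hg, hgσ⟩ := hmem
  have conj : ∀ a, ρ a * ι c * ρ a⁻¹ = ι (φ a c) := fun a => by
    rw [hι, mul_assoc, ← map_mul, mul_inv_cancel, map_one, mul_one]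
  obtain ⟨N, hN⟩ := (h p V G H ρ Λ hA g hg).2 (ι c) (by
    refine (Set.finite_range fun τ : K ≃ₐ[ℚ_[p]] K => ι (τ c)).subset ?_
    rintro _ ⟨n, rfl⟩
    exact ⟨φ (g ^ n), (conj _).symm⟩)
  have e : φ (g ^ p ^ N) c = c := by
    apply hinj
    rw [← conj, hN, mul_assoc, ← map_mul, mul_inv_cancel, map_one, mul_one]
  rw [map_pow, hgσ] at e
  have hc : (p ^ N).Coprime n := Nat.Coprime.pow_left N hnp.symm
  rw [hι, fix_of_pow hσ hc e]

open FieldP in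
theorem field_tk (h1 : T_Chief) (h2 : T_Eps) (h3 : S_Lat) : T_Field := by
  intro p _ n c V _ _ _ _ _ G _ H ρ Λ K _ _ _ ι φ W h6 hnp hq hpow hA hι hW hcov hN
  let : Algebra ℤ_[p] K := ((algebraMap ℚ_[p] K).comp (algebraMap ℤ_[p] ℚ_[p])).toAlgebra
  have : IsScalarTower ℤ_[p] ℚ_[p] K := IsScalarTower.of_algebraMap_eq fun _ => rfl
  set E := (IntermediateField.fixedField (H.map φ)).toSubfield with hE
  obtain ⟨k, t, ε, he0, he1, he2⟩ := h2 p n c K G H φ h6 hnp hA.normal hq hpow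
  let B : Set K := Set.range ε ∪ Set.range fun q : Fin k × Fin k => (ε q.1 - ε q.2)⁻¹
  have hB : ∀ b ∈ B, b ∈ E ∧ IsIntegral ℤ_[p] b := by
    rintro b (⟨i, rfl⟩ | ⟨⟨i, j⟩, rfl⟩)
    · exact ⟨mem_fix.2 (he1 i).1, (he1 i).2⟩
    · refine ⟨E.inv_mem (E.sub_mem (mem_fix.2 (he1 i).1) (mem_fix.2 (he1 j).1)), ?_⟩
      by_cases hij : i = j
      · subst hij
        simpa using isIntegral_zero
      · exact (he2 i j hij).2
  have hBf : B.Finite := (Set.finite_range _).union (Set.finite_range _)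
  let S : Set K := {c | ∃ a, ∃ b ∈ B, c = φ a b}
  have hSf : S.Finite := by
    refine (Set.Finite.image2 (fun (τ : K ≃ₐ[ℚ_[p]] K) (b : K) => τ b) Set.finite_univ
      hBf).subset ?_
    rintro _ ⟨a, b, hb, rfl⟩
    exact ⟨φ a, trivial, b, hb, rfl⟩
  have hBS : ∀ b ∈ B, b ∈ S := fun b hb => ⟨1, b, hb, by rw [map_one]; rfl⟩
  obtain ⟨Λ', hA', hΛ'⟩ := h3 p V G H ρ Λ K ι φ S hA hι hSf
    (by
      rintro _ ⟨a, b, hb, rfl⟩
      exact (hB b hb).2.map ((φ a).toAlgHom.restrictScalars ℤ_[p]))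
    (by
      rintro a _ ⟨a', b, hb, rfl⟩
      exact ⟨a * a', b, hb, (aut_mul φ a a' b).symm⟩)
  refine h1 p V G H t ρ Λ' W (ι '' S) k (fun i => ι (ε i)) hA' ?_ ?_ ?_ ?_ ?_ ?_
  · rintro _ ⟨c, hc, rfl⟩
    exact hΛ' c hc
  · rintro _ ⟨c, -, rfl⟩ a v hv
    have := congrArg (fun f : Module.End ℚ_[p] V => f v) (hι a c)
    simp only [Module.End.mul_apply] at this
    rw [this]
    exact hW _ _ hv
  · rintro _ ⟨_, ⟨a, b, hb, rfl⟩, rfl⟩ h hh
    rw [hι, mem_fix.1 (fix_stab hA.normal (hB b hb).1 a) h hh]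
  · exact fun i => ⟨ε i, hBS _ (Or.inl ⟨i, rfl⟩), rfl⟩
  · intro i j hij
    refine ⟨ι (ε i - ε j)⁻¹, ⟨_, hBS _ (Or.inr ⟨(i, j), rfl⟩), rfl⟩, ?_⟩
    rw [← map_sub, ← map_mul, inv_mul_cancel₀ (sub_ne_zero.2 (he2 i j hij).1), map_one]
  · intro v
    obtain ⟨a, ha⟩ := hcov v
    obtain ⟨i, hi, hai⟩ := he0 a
    obtain ⟨s, g, hg, hsg, hs⟩ := hN (a * (t i)⁻¹) (by
      intro x hx
      have hx' := mem_fix.1 (fix_stab hA.normal (mem_fix.2 hx) (t i)⁻¹)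
      rw [aut_mul, hai _ hx', ← aut_mul, mul_inv_cancel, map_one]
      rfl)
    refine ⟨i, hi, (t i)⁻¹ * g * (t i)⁻¹⁻¹, hA.normal.conj_mem g hg _, hs _ ?_⟩
    have e : a = s * (t i * ((t i)⁻¹ * g * (t i)⁻¹⁻¹)) := by
      rw [mul_inv_eq_iff_eq_mul.1 hsg]
      group
    rw [e, map_mul] at ha
    exact ha

end Pool.Agent.P.MP_169bcc_al.BR
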