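import Pool.Agent.P.MP_169bcc_al.BN.Spec

/-!
Package Fin, nilpotent quotient.
-/

open scoped commutatorElement TensorProduct
open LieAlgebra LieSubalgebra Module

noncomputable section

namespace Pool.Agent.P.MP_169bcc_al.BR

namespace FinN

theorem lte {d q f c : ℕ} (hd : d.Coprime 2) (hq : 2 ≤ q) (h1 : d ∣ (q - 1) ^ c)
    (h2 : d ∣ q ^ f - 1) : d ∣ (q - 1) * f := by
  refine (Nat.dvd_iff_prime_pow_dvd_dvd _ _).2 fun r j hr hj => ?_
  rcases Nat.eq_zero_or_pos j with rfl | hj0
  · simp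
  have hrd : r ∣ d := (dvd_pow_self r hj0.ne').trans hj
  have ho : Odd r := hr.odd_of_ne_two fun e => by
    subst e
    exact absurd (Nat.eq_one_of_dvd_coprimes hd hrd dvd_rfl) (by norm_num)
  have h3 : r ∣ q - 1 := hr.dvd_of_dvd_pow (hrd.trans h1)
  have h4 : ¬r ∣ q := fun h => hr.one_lt.ne' (Nat.dvd_one.1 (by
    have := Nat.dvd_sub h h3
    rwa [show q - (q - 1) = 1 by omega] at this))
  have h5 := Nat.emultiplicity_pow_sub_pow hr ho (y := 1) h3 h4 f
  rw [one_pow, ← emultiplicity_mul hr.prime] at h5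
  rw [pow_dvd_iff_le_emultiplicity, ← h5, ← pow_dvd_iff_le_emultiplicity]
  exact hj.trans h2

theorem sq_two {f : ℕ} (hf : 4 ≤ f) : f * f ≤ 2 ^ f := by
  induction f, hf using Nat.le_induction with
  | base => norm_num
  | succ n hn ih =>
    rw [pow_succ]
    nlinarith

theorem sq_three {f : ℕ} (hf : 4 ≤ f) : (f + 1) * (f + 1) ≤ 3 ^ f := by
  induction f, hf using Nat.le_induction with
  | base => norm_num
  | succ n hn ih =>
    rw [pow_succ]
    nlinarith

theorem ineq {q f : ℕ} (hq : 2 ≤ q) (hf : f.Coprime 6) : (q - 1) * f * f ≤ q ^ f := by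
  by_cases h1 : f = 1
  · subst h1
    simp
  have h5 : 5 ≤ f := by
    by_contra h
    have : f < 5 := by omega
    interval_cases f <;> simp_all <;> exact absurd hf (by decide)
  rcases hq.eq_or_lt with rfl | h3
  · simpa using sq_two (f := f) (by omega)
  · obtain ⟨g, rfl⟩ : ∃ g, f = g + 1 := ⟨f - 1, by omega⟩
    rw [mul_assoc, pow_succ']
    exact Nat.mul_le_mul (Nat.sub_le _ _)
      ((sq_three (by omega)).trans (Nat.pow_le_pow_left h3 g))

theorem frob (k : Type) [Field k] [Finite k] (R : Subgroup (RingAut k)) [Finite R] :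
    ∃ q, 2 ≤ q ∧ Nat.card k = q ^ Nat.card R ∧ ∃ s ∈ R, ∀ x, s x = x ^ q := by
  classical
  have := Fintype.ofFinite R
  have := Fintype.ofFinite (FixedPoints.subfield R k)
  obtain ⟨s, hs⟩ := FixedPoints.toAlgAut_surjective R k
    (FiniteField.frobeniusAlgEquivOfAlgebraic (FixedPoints.subfield R k) k)
  refine ⟨Fintype.card (FixedPoints.subfield R k), Fintype.one_lt_card, ?_, s, s.2, fun x => ?_⟩
  · rw [Module.natCard_eq_pow_finrank (K := FixedPoints.subfield R k),
      FixedPoints.finrank_eq_card, Nat.card_eq_fintype_card, Nat.card_eq_fintype_card]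
  · exact DFunLike.congr_fun hs x

end FinN

theorem fin_tk : T_Fin := by
  intro k _ _ Γ _ _ θ χ hn h6 hm h0 h1 hc
  have : Finite θ.range := Finite.of_surjective _ θ.rangeRestrict_surjective
  obtain ⟨q, hq, hk, _, ⟨g, rfl⟩, hg⟩ := FinN.frob k θ.range
  have e1 : χ 1 = 1 := mul_left_cancel₀ (h0 1 θ.map_one) (by
    rw [← hm 1 1 θ.map_one θ.map_one, mul_one, mul_one])
  let φ : θ.ker →* k := ⟨⟨fun a => χ a, e1⟩, fun a b => hm a b a.2 b.2⟩
  have hφ : Function.Injective φ := (injective_iff_map_eq_one φ).2 fun a ha =>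
    Subtype.ext (h1 a a.2 ha)
  have := isCyclic_of_injective_ringHom φ hφ
  have conj : ∀ a : θ.ker, g * a * g⁻¹ = a ^ q := fun a => by
    have := hφ (a₁ := ⟨g * a * g⁻¹, θ.normal_ker.conj_mem a a.2 g⟩) (a₂ := a ^ q) (by
      rw [map_pow]
      exact (hc g a a.2).trans (hg _))
    exact congrArg Subtype.val this
  have low : ∀ (i : ℕ) (a : θ.ker),
      (a : Γ) ^ (q - 1) ^ i ∈ (⊤ : Subgroup Γ).lowerCentralSeries i := fun i a => by
    induction i with
    | zero => exact Subgroup.mem_top _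
    | succ i ih =>
      have h2 := inv_mem (Subgroup.commutator_mem_commutator ih (Subgroup.mem_top g))
      have h3 := conj (a ^ (q - 1) ^ i)
      rw [Subgroup.coe_pow] at h3
      rw [commutatorElement_inv, commutatorElement_def, h3] at h2
      rw [pow_succ, pow_mul, pow_sub _ (by omega : 1 ≤ q), pow_one]
      exact h2
  obtain ⟨c, hc'⟩ := Subgroup.nilpotent_iff_lowerCentralSeries.1 hn
  have hcard : Nat.card Γ = Nat.card θ.ker * Nat.card θ.range := by
    rw [← Subgroup.index_ker, Subgroup.card_mul_index]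
  have d1 : Nat.card θ.ker ∣ (q - 1) ^ c := by
    rw [← IsCyclic.exponent_eq_card]
    refine Monoid.exponent_dvd_of_forall_pow_eq_one fun a => Subtype.ext ?_
    have := low c a
    rwa [hc', Subgroup.mem_bot] at this
  have d2 : Nat.card θ.ker ∣ q ^ Nat.card θ.range - 1 := by
    rw [← hk, ← Nat.card_units]
    exact Subgroup.card_dvd_of_injective φ.toHomUnits fun a b h => hφ (congrArg Units.val h)
  have c1 : (Nat.card θ.ker).Coprime 2 :=
    (h6.coprime_dvd_left ⟨_, hcard⟩).coprime_dvd_right (by norm_num)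
  have c2 : (Nat.card θ.range).Coprime 6 := h6.coprime_dvd_left (Dvd.intro_left _ hcard.symm)
  have d3 := Nat.le_of_dvd (Nat.mul_pos (by omega) Nat.card_pos) (FinN.lte c1 hq d1 d2)
  rw [hcard, hk]
  exact (Nat.mul_le_mul_right _ d3).trans (FinN.ineq hq c2)

end Pool.Agent.P.MP_169bcc_al.BR
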