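import Pool.Agent.P.MP_169bcc_al.BN.Spec
import Pool.Agent.P.MP_169bcc_al.BR.Diag
import Pool.Agent.P.MP_169bcc_al.BR.Inner

/-!
Package Inner, nilpotent quotient.
-/

open scoped commutatorElement TensorProduct
open LieAlgebra LieSubalgebra Module

noncomputable section

namespace Pool.Agent.P.MP_169bcc_al.BR

namespace InnerN

open LieModule LieAlgebra.IsKilling DiagP

variable {k g : Type} [Field k] [IsAlgClosed k] [CharZero k] [LieRing g] [LieAlgebra k g]
  [FiniteDimensional k g] [IsKilling k g] {H : LieSubalgebra k g} [H.IsCartanSubalgebra]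

theorem main (hR : T_Root) {σ : Module.End k g} {r : ℕ} (hr : r.Coprime 6)
    (hσ : IsAut σ) (hσr : σ ^ r = 1) (e : H ≃ₗ[k] H) (he : ∀ h : H, (e h : g) = σ h) (x : H)
    (hx : e x = x) (hne : ∀ α : H.root, α.1 x ≠ 0)
    (hI : ∀ I : LieIdeal k g, ∀ v ∈ I, σ v ∈ I) (v : H) : e v = v := by
  obtain ⟨π, hπ⟩ := exists_perm hσ e he
  obtain ⟨lam, hlam⟩ := Module.exists_dual_forall_apply_ne_zero (K := ℚ)
    (fun α : H.root => α.1 x) hne
  have hen : ∀ (n : ℕ) (h : H), ((e ^ n) h : g) = (σ ^ n) h := by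
    intro n h
    induction n with
    | zero => rfl
    | succ n ih => rw [pow_succ', pow_succ', LinearEquiv.mul_apply, he, ih, End.mul_apply]
  have hπn : ∀ (n : ℕ) (α : H.root) (h : H), ((π ^ n) α).1 ((e ^ n) h) = α.1 h := by
    intro n α h
    induction n with
    | zero => rfl
    | succ n ih =>
      rw [pow_succ', pow_succ', LinearEquiv.mul_apply, Equiv.Perm.mul_apply, hπ,
        e.symm_apply_apply, ih]
  have hx' : e.symm x = x := by rw [LinearEquiv.symm_apply_eq, hx]
  have h1 : π = 1 := by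
    refine hR k H.root (Dual k H) H (rootSystem H) e.symm.dualMap π
      (lam.toAddMonoidHom.comp (Dual.eval k H x).toAddMonoidHom) r hr ?_ ?_ hlam ?_ ?_
    · ext α z
      have h2 : (e ^ r) z = z := Subtype.ext (by rw [hen, hσr]; rfl)
      have := hπn r α z
      rwa [h2] at this
    · intro α
      ext z
      exact (hπ α z).symm
    · intro α
      change lam ((π α).1 x) = lam (α.1 x)
      rw [hπ, hx']
    · intro q hq α hα
      have hq' := (rootSystem H).mem_invtRootSubmodule_iff.1 hq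
      rw [← mem_rootSet_invtSubmoduleToLieIdeal q hq'] at hα ⊢
      intro y hy
      obtain ⟨y, rfl⟩ := hσ.bij.2 y
      have h3 : ((π α).1 : H → k) = fun h => α.1 (e.symm h) := funext (hπ α)
      rw [h3, map_rootSpace hσ e he] at hy
      exact hI _ y (hα hy)
  have h4 : e v - v ∈ ⨅ α : Weight k H g, α.ker := by
    refine (Submodule.mem_iInf _).2 fun μ => ?_
    by_cases hμ : μ.IsNonZero
    · have hμ' : μ ∈ H.root := by simpa [LieSubalgebra.root] using hμ
      have := hπ ⟨μ, hμ'⟩ (e v)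
      rw [h1, e.symm_apply_apply] at this
      change (μ : H →ₗ[k] k) (e v - v) = 0
      rw [map_sub, sub_eq_zero]
      exact this
    · have : μ.IsZero := not_not.1 hμ
      change μ (e v - v) = 0
      rw [this.eq]
      rfl
  rw [iInf_ker_weight_eq_bot, Submodule.mem_bot, sub_eq_zero] at h4
  exact h4

end InnerN

theorem diag_tk (h : T_Root) : T_Diag := by
  intro k g _ _ _ _ _ _ _ σ r x hr hσ hσr hx hreg hI v hv
  have := hreg.cartan
  have hm : ∀ y, σ y ∈ engel k x ↔ y ∈ engel k x := fun y => by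
    have := hσ.mem_engel x y
    rwa [hx] at this
  let e₀ : engel k x →ₗ[k] engel k x :=
    σ.restrict (p := (engel k x).toSubmodule) (q := (engel k x).toSubmodule)
      fun y hy => (hm y).2 hy
  have hi : Function.Injective e₀ := fun y z hyz =>
    Subtype.ext (hσ.bij.1 (congrArg Subtype.val hyz))
  let e : engel k x ≃ₗ[k] engel k x := LinearEquiv.ofInjectiveEndo e₀ hi
  refine congrArg Subtype.val (InnerN.main h hr hσ hσr e (fun _ => rfl)
    ⟨x, self_mem_engel k x⟩ (Subtype.ext hx) (fun α h0 => ?_) hI ⟨v, hv⟩)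
  obtain ⟨y, hy, hy0⟩ := α.1.exists_ne_zero
  have h1 := DiagP.mem_rootSpace.1 hy
  have h2 : y ∈ engel k x := by
    refine (mem_engel_iff k x y).2 ⟨1, ?_⟩
    have := h1 ⟨x, self_mem_engel k x⟩
    rw [h0, zero_smul] at this
    simpa using this
  apply (engel k x).isNonZero_coe_root α
  funext z
  have h3 := h1 z
  rw [hreg _ z.2 _ h2] at h3
  exact (smul_eq_zero.1 h3.symm).resolve_right hy0

theorem inner_tk (h1 : T_Kac) (h2 : T_Diag) : T_Inner := by
  intro F g _ _ _ _ _ _ σ r hr haut hpow hσ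
  let k := AlgebraicClosure F
  have : IsKilling k (k ⊗[F] g) := isKilling_baseChange k
  have haut' : IsAut (σ.baseChange k) := haut.baseChange
  have hpow' : σ.baseChange k ^ r = 1 := by
    rw [← LinearMap.baseChange_pow, hpow, LinearMap.baseChange_one]
  have hI : ∀ I : LieIdeal k (k ⊗[F] g), ∀ v ∈ I, σ.baseChange k v ∈ I := fun I v hv => by
    obtain ⟨e, he, e0, e1, -⟩ := exists_proj I
    rw [← e1 v hv, InnerP.comm_cen hσ he]
    exact e0 _
  obtain ⟨x, hx, hmin⟩ := InnerP.exists_min (k := k) (LinearMap.ker (σ - 1))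
  have hx' : σ x = x := sub_eq_zero.1 (by simpa using hx)
  have hfix : σ.baseChange k ((1 : k) ⊗ₜ[F] x) = (1 : k) ⊗ₜ[F] x := by
    rw [LinearMap.baseChange_tmul, hx']
  have hreg : Reg k ((1 : k) ⊗ₜ[F] x) := by
    refine h1 k (k ⊗[F] g) (σ.baseChange k) r _ (ne_zero_of_six hr) haut' hpow' hfix fun y hy => hmin y ?_
    refine mem_span_ker (φ := σ - 1) ?_
    rw [LinearMap.baseChange_sub, LinearMap.baseChange_one, LinearMap.sub_apply, hy]
    simp
  refine ⟨x, reg_tmul.1 hreg, fun v hv => one_tmul_inj (F := F) (k := k) ?_⟩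
  have := h2 k (k ⊗[F] g) (σ.baseChange k) r _ hr haut' hpow' hfix hreg hI _
    (tmul_mem_engel.2 hv)
  rwa [LinearMap.baseChange_tmul] at this

end Pool.Agent.P.MP_169bcc_al.BR
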