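import Pool.Agent.P.MP_169bcc_al.BN.Spec
import Pool.Agent.P.MP_169bcc_al.BR.Iter

/-!
Windows, nilpotent quotient.
-/

noncomputable section

namespace Pool.Agent.P.MP_169bcc_al.BR

theorem w_tk (h0 : T_Dec) (h1 : S_CalcA) (h2 : S_CalcW) (h3 : S_CalcB) (h4 : S_RelA)
    (h5 : S_RelB) (h6 : S_LW) (h7 : S_WD) (h8 : T_Lim) : T_W := by
  intro p n c B hp hn
  have : Fact p.Prime := ⟨hp⟩
  obtain ⟨m, hm, hmp, hd⟩ := h0 p n hp (ne_zero_of_six hn)
  obtain ⟨i, hi, H⟩ := h8 p m c n B (hn.coprime_dvd_left hm) hmp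
  refine ⟨4 * i, fun A _ _ K U P hK hG hI hq hC hF hP hB hW => ?_⟩
  by_contra hn
  obtain ⟨K', hK', hp'⟩ := hd c A K hK hG hI hq
  have cA := h1 p A P hF
  have cW := h2 p _ A P U hF cA hW
  have cB := h3 p A P hF cA
  have rA := h4 p i A P U hF cA cB cW
  have rB := h5 p i A P U hi hF cA cB cW
  obtain ⟨L⟩ := h6 p i A P U hF cA rA
  obtain ⟨D⟩ := h7 p i B A K U P hG hC hF cA hP hB hn rA rB L
  exact (H A K K' hK' hp').false D

theorem p_tk (h1 : S_PE) (h2 : S_Mu) (h3 : T_W) : T_P := by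
  intro p r e d hp hr
  obtain ⟨c, hc⟩ := h1 p d hp
  choose N hN using fun B => h3 p r e B hp hr
  refine ⟨c (IterP.js (fun j => N (c (j + 1) * r)) (2 * c 1 + 1)), ?_⟩
  intro A _ _ H U hH hP hI hq hR hC
  obtain ⟨P, hF, h0, ⟨n, hn⟩, hb⟩ := hc A H hH hP hR
  obtain ⟨⟨μ, m0, m1, m2⟩, hU⟩ := h2 p A P U hF
  have ne : ∀ K L : Subgroup A, K.relIndex L ≠ 0 := fun K L => Subgroup.index_ne_zero_of_finite
  have le : ∀ j, P j ≤ H := fun j => (hF.anti 0 j (Nat.zero_le j)).trans h0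
  have anti : Antitone μ := antitone_nat_of_succ_le m1
  have step : ∀ k, P k ≤ U ∨ μ (k + N (c (k + 1) * r)) < μ k := by
    intro k
    by_cases h : ∀ j < N (c (k + 1) * r), μ (k + j + 1) = μ (k + j)
    · refine Or.inl (hU k n ?_ hn)
      refine hN (c (k + 1) * r) A H U (fun i => P (k + i)) hH hP hI hq hC (hF.shift k) (le _) ?_
        fun j hj => m2 (k + j) (h j hj)
      rw [← Subgroup.relIndex_mul_index (le (k + 1)), hI]
      exact Nat.mul_le_mul_right _ (hb _)
    · push Not at h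
      obtain ⟨j, hj, h⟩ := h
      have a1 : μ (k + N (c (k + 1) * r)) ≤ μ (k + j + 1) := anti (by omega)
      have a2 : μ (k + j) ≤ μ k := anti (by omega)
      have a3 := m1 (k + j)
      exact Or.inr (by omega)
  have key : ∀ t, P (IterP.js (fun j => N (c (j + 1) * r)) t) ≤ U ∨
      μ (IterP.js (fun j => N (c (j + 1) * r)) t) + t ≤ μ 0 := by
    intro t
    induction t with
    | zero => exact Or.inr le_rfl
    | succ t ih =>
      rcases step (IterP.js (fun j => N (c (j + 1) * r)) t) with h | h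
      · exact Or.inl ((hF.anti _ _ (Nat.le_add_right _ _)).trans h)
      · rcases ih with ih | ih
        · exact Or.inl ((hF.anti _ _ (Nat.le_add_right _ _)).trans ih)
        · refine Or.inr ?_
          rw [IterP.js]
          omega
  have b0 : (P 1).relIndex (P 0) ≤ c 1 :=
    (Subgroup.relIndex_le_of_le_right h0 (ne _ _)).trans (hb 1)
  rcases key (2 * c 1 + 1) with h | h
  · exact (Subgroup.relIndex_le_of_le_left h (ne _ _)).trans (hb _)
  · omega

end Pool.Agent.P.MP_169bcc_al.BR
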