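import Pool.Agent.P.MP_169bcc_al.BN.Spec
import Pool.Agent.P.MP_169bcc_al.BR.Kac
import Pool.Agent.P.MP_169bcc_al.BR.Root

/-!
Package Kac, nilpotent quotient.
-/

open scoped commutatorElement TensorProduct
open LieAlgebra LieSubalgebra Module

noncomputable section

namespace Pool.Agent.P.MP_169bcc_al.BR

open KacP in
theorem kac_tk (h : T_Kac2) : T_Kac := by
  intro k g _ _ _ _ _ _ _ σ r x hr hσ hσr hx hmin
  have hst : ∀ z ∈ engel k x, σ z ∈ engel k x := fun z hz => by
    have := (hσ.mem_engel x z).2 hz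
    rwa [hx] at this
  have hxU : x ∈ fix (engel k x) hσ := ⟨self_mem_engel k x, hx⟩
  have hbot : ∀ y ∈ fix (engel k x) hσ, engel k x ≤ engel k y := fun y hy => by
    have := engel_isBot_of_isMin
      (Cardinal.natCast_le_aleph0.trans (Cardinal.infinite_iff.1 inferInstance))
      (fix (engel k x) hσ) ⟨engel k x, x, hxU, rfl⟩ (fun _ hz => hz.1) (by
        rintro ⟨_, z, hz, rfl⟩ hzx
        suffices engel k z = engel k x from this.ge
        exact LieSubalgebra.toSubmodule_injective
          (Submodule.eq_of_le_of_finrank_le hzx (hmin z hz.2)))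
    exact @this ⟨engel k y, y, hy, rfl⟩
  have : LieRing.IsNilpotent (fix (engel k x) hσ) :=
    isNilpotent_of_forall_le_engel _ fun y hy z hz => hbot y hy hz.1
  have hc : engel k x = zeroRootSubalgebra k g (fix (engel k x) hσ) := by
    ext z
    rw [mem_zeroRootSubalgebra]
    exact ⟨fun hz y => (mem_engel_iff k _ _).1 (hbot y y.2 hz),
      fun hz => (mem_engel_iff k _ _).2 (hz ⟨x, hxU⟩)⟩
  have hnd := nondeg _ _ hc
  let τ : Module.End k (engel k x) := σ.restrict (p := (engel k x).toSubmodule) hst
  have hτ : ∀ y : engel k x, (τ y : g) = σ y := fun _ => rfl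
  have hp : ∀ (n : ℕ) (y : engel k x), ((τ ^ n) y : g) = (σ ^ n) y := fun n y => by
    induction n with
    | zero => rfl
    | succ n ih => rw [pow_succ', pow_succ', Module.End.mul_apply, Module.End.mul_apply, hτ, ih]
  have hinj : Function.Injective τ := fun a b hab =>
    Subtype.ext (hσ.bij.1 (by rw [← hτ, ← hτ, hab]))
  have hab := h k (engel k x) g τ r hr
    ⟨⟨hinj, LinearMap.injective_iff_surjective.1 hinj⟩, fun a b => Subtype.ext (hσ.lie a b)⟩
    (LinearMap.ext fun y => Subtype.ext (by rw [hp, hσr]; rfl))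
    hnd fun y hy hfy => by
      have hy1 : σ y = y := congrArg Subtype.val hfy
      have hyU : (y : g) ∈ fix (engel k x) hσ := ⟨y.2, hy1⟩
      have h1 : ∀ z ∈ fix (engel k x) hσ, killingForm k g y z = 0 := fun z hz => by
        have := LieModule.traceForm_eq_sum_finrank_nsmul_mul k (fix (engel k x) hσ) g
          ⟨y, hyU⟩ ⟨z, hz⟩
        simp only [weight_zero _ _ hc _ y hy hyU, zero_mul, smul_zero,
          Finset.sum_const_zero] at this
        exact this
      rw [← Submodule.mem_bot k, ← hnd, LinearMap.mem_ker]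
      ext z
      have h2 : ∀ n : ℕ, killingForm k g y ((σ ^ n) z) = killingForm k g y z := fun n => by
        induction n with
        | zero => rfl
        | succ n ih => rw [← ih, pow_succ', Module.End.mul_apply, ← hσ.killing y ((σ ^ n) z), hy1]
      have h3 := h1 (∑ i ∈ Finset.range r, (σ ^ i) z)
        ⟨(engel k x).toSubmodule.sum_mem fun i _ => hp i z ▸ ((τ ^ i) z).2, by
          have e := Finset.sum_range_succ' (fun i => (σ ^ i) (z : g)) r
          rw [Finset.sum_range_succ, hσr, pow_zero, add_left_inj] at e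
          rw [map_sum, e]
          exact Finset.sum_congr rfl fun i _ => by rw [pow_succ', Module.End.mul_apply]⟩
      simp only [map_sum, h2, Finset.sum_const, Finset.card_range, nsmul_eq_mul] at h3
      exact (mul_eq_zero.1 h3).resolve_left (Nat.cast_ne_zero.2 hr)
  exact fun y hy z hz => congrArg Subtype.val (hab.trivial ⟨y, hy⟩ ⟨z, hz⟩)

theorem root_tk (h : S_Root) : T_Root := by
  intro k ι M N _ _ _ _ _ _ _ P _ _ _ s π f n hn hπ hs hf hfπ hq
  by_contra hne
  have hd : orderOf π ∣ n := orderOf_dvd_of_pow_eq_one hπ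
  have h1 : orderOf π ≠ 1 := fun e => hne (orderOf_eq_one_iff.1 e)
  have h0 : orderOf π ≠ 0 := fun e => ne_zero_of_six hn (Nat.eq_zero_of_zero_dvd (e ▸ hd))
  obtain ⟨r, hr, t, ht⟩ := Nat.exists_prime_and_dvd h1
  have hc : r.Coprime 6 := hn.coprime_dvd_left ((Dvd.intro t ht.symm).trans hd)
  have h5 : 5 ≤ r := hr.five_le_of_ne_two_of_ne_three (by rintro rfl; revert hc; decide)
    (by rintro rfl; revert hc; decide)
  have key : π ^ t = 1 := by
    refine h k ι M N P (s ^ t) (π ^ t) f r hr h5
      (by rw [← pow_mul, mul_comm, ← ht, pow_orderOf_eq_one]) ?_ hf ?_ fun q hq' => ?_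
    all_goals
      clear ht
      induction t with
      | zero => simp
      | succ t ih => ?_
    · intro i
      rw [pow_succ', pow_succ', LinearEquiv.mul_apply, Equiv.Perm.mul_apply, ih, hs]
    · intro i
      rw [pow_succ', Equiv.Perm.mul_apply, hfπ, ih]
    · intro i hi
      rw [pow_succ', Equiv.Perm.mul_apply]
      exact hq q hq' _ (ih i hi)
  have ht0 : t ≠ 0 := by
    rintro rfl
    exact h0 ht
  refine pow_ne_one_of_lt_orderOf ht0 ?_ key
  rw [ht]
  exact lt_mul_of_one_lt_left (Nat.pos_of_ne_zero ht0) hr.one_lt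

end Pool.Agent.P.MP_169bcc_al.BR
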