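import Pool.Agent.P.MP_169bcc_al.BN.Spec
import Pool.Agent.P.MP_169bcc_al.BR.Kac2

/-!
Package Kre, nilpotent quotient.
-/

open scoped commutatorElement TensorProduct
open LieAlgebra LieSubalgebra Module

noncomputable section

namespace Pool.Agent.P.MP_169bcc_al.BR

theorem kre_tk : T_Kre := by
  intro k d _ _ _ _ _ _ τ n hn hA hτ hperf hfix
  have : NeZero n := ⟨hn⟩
  have : NeZero (n : k) := ⟨Nat.cast_ne_zero.2 hn⟩
  obtain ⟨z, hz⟩ := HasEnoughRootsOfUnity.exists_primitiveRoot k n
  let Y : ℕ → Set d := fun m => {y | ∃ j, m ≤ j ∧ j < n ∧ τ y = z ^ j • y}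
  have span : ∀ S : Submodule k d, (∀ a < n, ∀ w, τ w = z ^ a • w → w ∈ S) → ∀ w, w ∈ S := by
    intro S hS w
    have := Kac2P.lin_zero hn hτ S.mkQ fun μ a hμ ha => by
      obtain ⟨i, hi, rfl⟩ := hz.eq_pow_of_pow_eq_one hμ
      exact (Submodule.Quotient.mk_eq_zero S).2 (hS i hi a ha)
    exact (Submodule.Quotient.mk_eq_zero S).1 (LinearMap.congr_fun this w)
  have key : ∀ m, m ≤ n → ∀ w, w ∈ lieSpan k d (Y m) := by
    intro m
    induction m with
    | zero => exact fun _ => span (lieSpan k d (Y 0)).toSubmodule fun a ha w hw =>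
        subset_lieSpan ⟨a, Nat.zero_le _, ha, hw⟩
    | succ m ih =>
      intro hm
      set T := lieSpan k d (Y (m + 1)) with hT
      let Q : Module.End k d := ∑ i ∈ Finset.range n, (z ^ m)⁻¹ ^ i • τ ^ i
      have hz0 : z ^ m ≠ 0 := pow_ne_zero _ (hz.ne_zero hn)
      have hQ : ∀ (μ : k) (w : d), τ w = μ • w →
          Q w = (∑ i ∈ Finset.range n, ((z ^ m)⁻¹ * μ) ^ i) • w := fun μ w hw => by
        simp only [Q, LinearMap.sum_apply, LinearMap.smul_apply, Kac2P.pow_eig hw, smul_smul,
          Finset.sum_smul, mul_pow]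
      have hB : ∀ y ∈ Y m, ∀ w : d, Q ⁅w, y⁆ ∈ T := by
        rintro y ⟨j, h1, h2, hy⟩
        suffices ∀ a < n, ∀ w, τ w = z ^ a • w → Q ⁅w, y⁆ ∈ T from fun w => by
          have h := span (T.toSubmodule.comap (Q ∘ₗ ad k d y)) (fun a ha w hw => by
            show Q ⁅y, w⁆ ∈ T
            rw [← lie_skew, map_neg]
            exact T.neg_mem (this a ha w hw)) w
          rw [← lie_skew, map_neg]
          exact T.neg_mem h
        intro a ha w hw
        rw [hQ _ _ (Kac2P.br hA hw hy)]
        by_cases e : (z ^ m)⁻¹ * (z ^ a * z ^ j) = 1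
        · refine T.smul_mem _ ?_
          rw [inv_mul_eq_one₀ hz0, ← pow_add] at e
          have e2 : m ≡ a + j [MOD n] := by
            rw [hz.eq_orderOf]
            exact (hz.isOfFinOrder hn).pow_eq_pow_iff_modEq.1 e
          rcases Nat.eq_zero_or_pos a with rfl | ha0
          · rw [hfix w (by simpa using hw), zero_lie]
            exact T.zero_mem
          obtain ⟨c, hc⟩ := (Nat.modEq_iff_dvd' (by omega : m ≤ a + j)).1 e2
          have hc1 : c = 1 := by
            rcases c with _ | _ | c
            · omega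
            · rfl
            · rw [mul_add, mul_add] at hc
              omega
          subst hc1
          exact T.lie_mem (subset_lieSpan ⟨a, by omega, ha, hw⟩)
            (subset_lieSpan ⟨j, by omega, h2, hy⟩)
        · have h3 : ((z ^ m)⁻¹ * (z ^ a * z ^ j)) ^ n = 1 := by
            rw [mul_pow, mul_pow, inv_pow, pow_right_comm z m, pow_right_comm z a,
              pow_right_comm z j, hz.pow_eq_one]
            simp
          rw [geom_sum_eq e, h3, sub_self, zero_div, zero_smul]
          exact T.zero_mem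
      have hC : ∀ y w : d, Q ⁅w, y⁆ ∈ T := by
        intro y
        have hy := ih (by omega) y
        induction hy using LieSubalgebra.lieSpan_induction with
        | mem y hy => exact hB y hy
        | zero => intro w; simp
        | add x y _ _ hx hy => intro w; rw [lie_add, map_add]; exact T.add_mem (hx w) (hy w)
        | smul c x _ hx => intro w; rw [lie_smul, map_smul]; exact T.smul_mem c (hx w)
        | lie x y _ _ hx hy =>
          intro w
          rw [leibniz_lie, ← lie_skew x, map_add, map_neg]
          exact T.add_mem (hy _) (T.neg_mem (hx _))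
      have hD := hperf (T.toSubmodule.comap Q) fun x y => hC y x
      have hm' : ∀ w, τ w = z ^ m • w → w ∈ T := fun w hw => by
        have h1 : Q w ∈ T := (hD.ge Submodule.mem_top : w ∈ T.toSubmodule.comap Q)
        rw [hQ _ _ hw, inv_mul_cancel₀ hz0] at h1
        simp only [one_pow, Finset.sum_const, Finset.card_range, nsmul_eq_mul, mul_one] at h1
        exact (T.toSubmodule.smul_mem_iff (Nat.cast_ne_zero.2 hn)).1 h1
      have hle : lieSpan k d (Y m) ≤ T := lieSpan_le.2 (by
        rintro y ⟨j, h1, h2, hy⟩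
        rcases h1.eq_or_lt with rfl | h1
        · exact hm' y hy
        · exact subset_lieSpan ⟨j, h1, h2, hy⟩)
      exact fun w => hle (ih (by omega) w)
  intro y
  have := key n le_rfl y
  have e : Y n = ∅ := Set.eq_empty_of_forall_notMem fun y ⟨j, h1, h2, _⟩ => by omega
  rwa [e, span_empty, LieSubalgebra.mem_bot] at this

end Pool.Agent.P.MP_169bcc_al.BR
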