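import Pool.Agent.P.MP_169bcc_al.BN.Spec
import Pool.Agent.P.MP_169bcc_al.BR.Lie

/-!
Package Lie, nilpotent quotient.
-/

open scoped commutatorElement TensorProduct
open LieAlgebra LieSubalgebra Module

noncomputable section

namespace Pool.Agent.P.MP_169bcc_al.BR

namespace LieN

open LieP

theorem main (h : T_SS) (p : ℕ) [Fact p.Prime] (r c : ℕ) (G : Type) [Group G] (H : Subgroup G)
    (T : Finset G) (n : ℕ) : ∀ (g : Type) [LieRing g] [LieAlgebra ℚ_[p] g]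
    [Module ℤ_[p] g] [IsScalarTower ℤ_[p] ℚ_[p] g] [FiniteDimensional ℚ_[p] g]
    (ρ : G →* Module.End ℚ_[p] g) (Λ : Submodule ℤ_[p] g) (u : LieSubalgebra ℚ_[p] g),
    finrank ℚ_[p] g = n → Hyn p r c H ρ Λ u →
    (∀ a, ∃ t ∈ T, ∀ I : LieIdeal ℚ_[p] g, ∀ v ∈ I, ρ (t⁻¹ * a) v ∈ I) → u = ⊤ := by
  induction n using Nat.strong_induction_on with
  | _ n ih =>
    intro g _ _ _ _ _ ρ Λ u hn hy hT
    by_cases hK : IsKilling ℚ_[p] g
    · exact h p r c g G H ρ Λ u hy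
    obtain ⟨W, h0, hab, hW⟩ := exists_ab hK
    have hW' : ∀ a, ∀ v ∈ W, ρ a v ∈ W := fun a => hW _ (hy.aut a)
    obtain ⟨ρ', hρ⟩ := exists_rep ρ W hW'
    let π : g →ₗ[ℤ_[p]] g ⧸ W := (mkL W).toLinearMap.restrictScalars ℤ_[p]
    have hπ : ∀ v, π v = mkL W v := fun _ => rfl
    have hlt : finrank ℚ_[p] (g ⧸ W) < n := by
      have a1 := Submodule.finrank_quotient_add_finrank W.toSubmodule
      have a2 : finrank ℚ_[p] W.toSubmodule ≠ 0 := fun hh =>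
        h0 ((LieSubmodule.toSubmodule_eq_bot W).1 (Submodule.finrank_eq_zero.1 hh))
      change finrank ℚ_[p] (g ⧸ W.toSubmodule) < n
      omega
    have key := ih _ hlt (g ⧸ W) ρ' (Λ.map π) (u.map (mkL W)) rfl
      ⟨hy.six, hy.cop, hy.nq, ⟨hy.act.normal, ⟨hy.act.lat.fg.map π, fun v => ?_⟩,
        ?_, fun a ha m => ?_⟩, fun a => ?_, fun a x y => ?_, fun z => ?_⟩ fun a => ?_
    · refine ab_le ρ W u T hW' hab (fun z => ?_) hy.cov hT
      obtain ⟨x, hx, e⟩ : mkL W z ∈ u.map (mkL W) := key ▸ trivial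
      exact ⟨x, hx, mkL_eq W e⟩
    · obtain ⟨v, rfl⟩ := mkL_surj W v
      obtain ⟨k, hk⟩ := hy.act.lat.span v
      exact ⟨k, _, hk, by rw [hπ, map_nsmul]⟩
    · rintro a _ ⟨v, hv, rfl⟩
      exact ⟨_, hy.act.stab a v hv, by rw [hπ, hπ, hρ]⟩
    · obtain ⟨N, hN⟩ := hy.act.uni a ha m
      refine ⟨N, ?_⟩
      rintro _ ⟨v, hv, rfl⟩
      obtain ⟨w, hw, e⟩ := hN v hv
      exact ⟨π w, ⟨w, hw, rfl⟩, by rw [hπ, hπ, hρ, e, map_add, map_nsmul]⟩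
    · obtain ⟨b, h1, h2, h3⟩ := hy.tame a
      refine ⟨b, h1, h2, fun S hS v hv => ?_⟩
      obtain ⟨v, rfl⟩ := mkL_surj W v
      rw [hρ]
      refine h3 (S.comap (mkL W).toLinearMap) (fun w hw => ?_) v hv
      have := hS _ hw
      change mkL W (ρ a w) ∈ S
      rwa [← hρ]
    · obtain ⟨x, rfl⟩ := mkL_surj W x
      obtain ⟨y, rfl⟩ := mkL_surj W y
      rw [← LieHom.map_lie, hρ, hρ, hρ, hy.lie, LieHom.map_lie]
    · obtain ⟨z, rfl⟩ := mkL_surj W z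
      obtain ⟨a, ha⟩ := hy.cov z
      exact ⟨a, _, ha, (hρ a z).symm⟩
    · obtain ⟨t, ht, hI⟩ := hT a
      refine ⟨t, ht, fun I v hv => ?_⟩
      obtain ⟨v, rfl⟩ := mkL_surj W v
      rw [hρ]
      exact hI (I.comap (mkL W)) v hv

end LieN

theorem lie_tk (h : T_SS) : T_Lie := fun p _ r c g _ _ _ _ _ G _ H ρ Λ u T hy hT =>
  LieN.main h p r c G H T _ g ρ Λ u rfl hy hT

end Pool.Agent.P.MP_169bcc_al.BR
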