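import Pool.Agent.P.MP_169bcc_al.BN.Spec
import Pool.Agent.P.MP_169bcc_al.BR.LieZ

/-!
Package LieZ, nilpotent quotient.
-/

open scoped commutatorElement TensorProduct
open LieAlgebra LieSubalgebra Module

noncomputable section

namespace Pool.Agent.P.MP_169bcc_al.BR

open LieZP in
theorem lieZ_tk (h1 : S_Nak) (h2 : T_Lie) : T_LieZ := by
  intro p _ n c L _ _ _ G _ H ρ M T h6 hp hH hq hlie hcov huni htame hlink
  have hu : uM M = ⊤ := by
    refine h2 p n c (ℚ_[p] ⊗[ℤ_[p]] L) G H (rho ρ) (LinearMap.range (j (p := p) (L := L))) (uM M) T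
      ⟨h6, hp, hq, ⟨hH, lat, ?_, ?_⟩, ?_, rho_lie ρ hlie, ?_⟩ ?_
    · rintro a _ ⟨x, rfl⟩
      exact ⟨ρ a x, (rho_j ρ a x).symm⟩
    · intro h hh m
      obtain ⟨N, hN⟩ := huni h hh m
      refine ⟨N, ?_⟩
      rintro _ ⟨x, rfl⟩
      obtain ⟨v, hv⟩ := hN x
      exact ⟨_, ⟨v, rfl⟩, by rw [rho_j, hv, map_add, map_nsmul]⟩
    · intro a
      obtain ⟨b, hb1, hb2, hb3⟩ := htame a
      refine ⟨b, hb1, hb2, fun W hW v hv => ?_⟩
      have hpow : ∀ k : ℕ, ∀ w ∈ W, rho ρ (a ^ k) w ∈ W := by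
        intro k
        induction k with
        | zero =>
          intro w hw
          rwa [pow_zero, map_one, Module.End.one_apply]
        | succ k ih =>
          intro w hw
          rw [pow_succ, map_mul, Module.End.mul_apply]
          exact ih _ (hW w hw)
      obtain ⟨k, x, hx⟩ := all_clear v
      have hxW : j (p := p) x ∈ W := hx ▸ nsmul_mem hv _
      refine mem_of_nsmul_mem (k := k) ?_
      rw [← map_nsmul, hx]
      refine clo (lat (p := p) (L := L)).fg fun m => ?_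
      obtain ⟨e, he⟩ := hb3 m
      obtain ⟨w, hw⟩ := he x
      exact ⟨_, hpow e _ hxW, _, ⟨w, rfl⟩, by rw [rho_j, rho_j, hw, map_add, map_nsmul]⟩
    · intro z
      obtain ⟨k, x, hx⟩ := all_clear z
      obtain ⟨a, ha⟩ := hcov x
      refine ⟨a, (mem_uM M _).2 (mem_of_nsmul_mem (k := k) ?_)⟩
      rw [← map_nsmul, hx, rho_j]
      exact Submodule.subset_span ⟨_, ha, rfl⟩
    · intro a
      obtain ⟨t, ht, X, hX1, hX2⟩ := hlink a
      refine ⟨t, ht, fun I v hv => ?_⟩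
      refine h1 p (ℚ_[p] ⊗[ℤ_[p]] L) (LinearMap.range (j (p := p) (L := L))) (rho ρ (t⁻¹ * a))
        (ad ℚ_[p] _ (j (p := p) X)) I.toSubmodule lat ?_ ?_ ?_ v hv
      · rintro _ ⟨y, rfl⟩
        obtain ⟨w, hw⟩ := hX1 y
        exact ⟨_, ⟨w, rfl⟩, by rw [rho_j, hw, map_add, map_nsmul]⟩
      · rintro i _ ⟨y, rfl⟩
        obtain ⟨w, hw⟩ := hX2 i y
        refine ⟨_, ⟨w, rfl⟩, ?_⟩
        rw [← map_pow, rho_j, hw, map_add, map_add, map_nsmul, map_nsmul, ad_apply, j_lie]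
      · intro w hw
        exact I.lie_mem hw
  refine uniform M.toSubmodule fun x => ?_
  have hx : j (p := p) x ∈ uM M := hu ▸ LieSubalgebra.mem_top _
  obtain ⟨k, y, hy, h⟩ := span_clear _ ((mem_uM M _).1 hx)
  obtain ⟨l, hl⟩ := j_ker (p := p) (x := p ^ k • x - y) (by rw [map_sub, map_nsmul, h, sub_self])
  refine ⟨l + k, ?_⟩
  rw [smul_sub, sub_eq_zero, smul_smul, ← pow_add] at hl
  rw [hl]
  exact nsmul_mem hy _

end Pool.Agent.P.MP_169bcc_al.BR
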