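import Pool.Agent.P.MP_169bcc_al.BN.Spec
import Pool.Agent.P.MP_169bcc_al.BR.Lim

/-!
Package Lim, nilpotent quotient.
-/

open scoped commutatorElement TensorProduct
open LieAlgebra LieSubalgebra Module

noncomputable section

namespace Pool.Agent.P.MP_169bcc_al.BR

namespace LimN

open Filter LimP

variable {p : ℕ} [Fact p.Prime] {B r c s : ℕ}

theorem per {i : ℕ} {A : Type} [Group A] {H H' : Subgroup A} (D : WD p i B A H) (hd : Dn r c H')
    (hs : ∀ h ∈ H', h ^ p ^ s ∈ H) (a : A) (m e : ℕ) (x : D.L) :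
    ∃ v, D.ρ (a ^ e) x = D.ρ (a ^ (e % (r * p ^ s * p ^ (B + m)))) x + p ^ m • v := by
  have h1 : a ^ r ∈ H' := by
    obtain ⟨e, h1, h2⟩ := hd.tame a
    have := (Cg.pow hd.normal (show Cg H' a (a ^ e) from h2) r).symm
    rwa [h1, cg_one] at this
  have h2 := D.uni _ (hs _ h1) m
  rw [← pow_mul, ← pow_mul, ← mul_assoc] at h2
  generalize r * p ^ s * p ^ (B + m) = w at h2
  have h3 : ∀ q x, ∃ v, D.ρ (a ^ (w * q)) x = x + p ^ m • v := fun q => by
    induction q with
    | zero => exact fun x => ⟨0, by rw [mul_zero, pow_zero, rep_one, smul_zero, add_zero]⟩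
    | succ q ih =>
      intro x
      obtain ⟨v, hv⟩ := h2 x
      obtain ⟨v', hv'⟩ := ih (D.ρ (a ^ w) x)
      exact ⟨v + v', by rw [mul_add, mul_one, pow_add, rep_mul, hv', hv, smul_add, add_assoc]⟩
  conv => enter [1, v, 1]; rw [← Nat.div_add_mod e w, pow_add, rep_mul]
  exact h3 _ _

variable {A : ℕ → Type} [∀ n, Group (A n)] {H H' : ∀ n, Subgroup (A n)}

theorem nq (h : ∀ n, Nq c (H' n)) : Nq c (HH H') := by
  choose Z h0 h1 h2 using h
  exact ⟨fun i => HH fun j => Z j i, fun x hx => hx.mono fun n hn => h0 n hn,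
    fun x => .of_forall fun n => h1 n (x n),
    fun i x hx y => hx.mono fun n hn => h2 n i (x n) hn (y n)⟩

theorem false_of (D : ∀ n, WD p (n + 1) B (A n) (H n)) (h : T_LieZ) (h6 : r.Coprime 6)
    (hp : r.Coprime p) (hd : ∀ n, Dn r c (H' n)) (hs : ∀ n, ∀ h ∈ H' n, h ^ p ^ s ∈ H n) :
    False := by
  classical
  have := fin D
  have hp0 : 0 < p := (Fact.out : p.Prime).pos
  have hr0 : 0 < r := Nat.pos_of_ne_zero (ne_zero_of_six h6)
  let t : Fin B → ∀ n, A n := fun s n => (D n).t s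
  obtain ⟨k, hk⟩ := h p r c (LL D) (∀ n, A n) (HH H') (ρ1 D) ((M0 D).map (mk D))
    (Finset.univ.image t) h6 hp
    ⟨fun a ha b => ha.mono fun n hn => (hd n).normal.conj_mem _ hn _⟩ (nq fun n => (hd n).nq)
    (fun a x y => by
      obtain ⟨x, rfl⟩ := mk_surj D x
      obtain ⟨y, rfl⟩ := mk_surj D y
      rw [← LieHom.map_lie, ρ1_mk, ρ1_mk, ρ1_mk, ← LieHom.map_lie]
      exact congrArg (mk D) (funext fun n => (D n).lie (a n) (x n) (y n)))
    (fun x => by
      obtain ⟨x, rfl⟩ := mk_surj D x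
      choose a ha using fun n => (D n).cov (x n)
      exact ⟨a, ρ0 D a x, ha, rfl⟩)
    (fun g hg m => ⟨s + (B + m), fun x => by
      obtain ⟨x, rfl⟩ := mk_surj D x
      rw [ρ1_mk, pow_add, pow_mul]
      exact eq_add_of D (hg.mono fun n hn => (D n).uni _ (hs n _ hn) m (x n))⟩)
    (fun a => by
      choose e h1 h2 using fun n => (hd n).tame (a n)
      refine ⟨fun n => a n ^ e n, funext h1, .of_forall h2, fun m => ?_⟩
      have hw : 0 < r * p ^ s * p ^ (B + m) := by positivity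
      obtain ⟨j, hj⟩ := (hyperfilter ℕ).eventually_exists_iff.1 (Eventually.of_forall fun n =>
        (⟨⟨_, Nat.mod_lt (e n) hw⟩, rfl⟩ :
          ∃ j : Fin (r * p ^ s * p ^ (B + m)), e n % (r * p ^ s * p ^ (B + m)) = j))
      refine ⟨j, fun x => ?_⟩
      obtain ⟨x, rfl⟩ := mk_surj D x
      rw [ρ1_mk, ρ1_mk]
      refine eq_add_of D (hj.mono fun n hn => ?_)
      have := per (D n) (hd n) (hs n) (a n) m (e n) (x n)
      rw [hn] at this
      exact this)
    (fun a => by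
      obtain ⟨s, hs⟩ := (hyperfilter ℕ).eventually_exists_iff.1
        (Eventually.of_forall fun n => (D n).link (a n))
      obtain ⟨X', hX⟩ := dchoice hs
      obtain ⟨X, rfl⟩ : ∃ X : L0 D, X = X' := ⟨X', rfl⟩
      refine ⟨t s, Finset.mem_image_of_mem _ (Finset.mem_univ s), mk D X, fun y => ?_,
        fun j y => ?_⟩
      · obtain ⟨y, rfl⟩ := mk_surj D y
        rw [ρ1_mk]
        exact eq_add_of D (hX.mono fun n hn => hn.1 (y n))
      · obtain ⟨y, rfl⟩ := mk_surj D y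
        rw [ρ1_mk, ← LieHom.map_lie, ← map_nsmul, ← map_add]
        exact eq_add_of D ((hX.and (ev_ge (2 * j))).mono fun n hn =>
          hn.1.2 j (by omega) (y n)))
  choose x' hx using fun n => (D n).far
  obtain ⟨x, rfl⟩ : ∃ x : L0 D, x = x' := ⟨x', rfl⟩
  obtain ⟨u, hu, e⟩ := hk (mk D x)
  have e' : mk D (p ^ k • x) = mk D u := by rw [map_nsmul]; exact e.symm
  obtain ⟨n, ⟨v, hv⟩, hn⟩ := (((mk_eq D).1 e' (k + 1)).and (ev_ge k)).exists
  exact hx n k (by omega) (u n) (hu n) v (by rw [← hv]; exact (add_sub_cancel _ _).symm)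

end LimN

theorem lim_tk (h : T_LieZ) : T_Lim := by
  intro p _ r c s B h6 hp
  by_contra hn
  push Not at hn
  choose A inst H H' hd hs hD using fun n => hn (n + 1) (Nat.succ_pos n)
  exact LimN.false_of (fun n => (hD n).some) h h6 hp hd hs

end Pool.Agent.P.MP_169bcc_al.BR
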