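import Pool.Agent.P.MP_169bcc_al.BN.Spec

/-!
Package Loc, nilpotent quotient.
-/

open scoped commutatorElement TensorProduct
open LieAlgebra LieSubalgebra Module

noncomputable section

namespace Pool.Agent.P.MP_169bcc_al.BR

namespace LocN

open scoped NormedField Valued
open Valued.integer

theorem main (K : Type) [NontriviallyNormedField K] [IsUltrametricDist K] [ProperSpace K] :
    ∃ (k : Type) (_ : Field k) (_ : Finite k) (O : Subring K) (r : O →+* k) (π : K),
      (∀ x, x ∈ O ↔ ‖x‖ ≤ 1) ∧ Function.Surjective r ∧ (∀ x : O, r x = 0 ↔ ‖(x : K)‖ < 1) ∧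
        π ≠ 0 ∧ ∀ z ∈ O, z ≠ 0 → ∃ a : ℕ, ‖z‖ = ‖π‖ ^ a := by
  haveI : (Valued.v : Valuation K NNReal).RankOne :=
    inferInstanceAs (NormedField.valuation (K := K)).RankOne
  have h0 : CompactSpace 𝒪[K] := by
    refine isCompact_iff_compactSpace.1 ?_
    convert isCompact_closedBall (0 : K) 1 using 1
    ext x
    simpa using mem_iff
  obtain ⟨-, h1, h2⟩ :=
    compactSpace_iff_completeSpace_and_isDiscreteValuationRing_and_finite_residueField.1 h0
  obtain ⟨π, hπ⟩ := IsDiscreteValuationRing.exists_irreducible 𝒪[K]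
  refine ⟨𝓀[K], inferInstance, h2, 𝒪[K], IsLocalRing.residue _, π, fun x => mem_iff,
    IsLocalRing.residue_surjective, fun x => ?_, fun h => hπ.ne_zero (Subtype.ext h),
    fun z hz h0 => ?_⟩
  · rw [IsLocalRing.residue_eq_zero_iff, IsLocalRing.mem_maximalIdeal, mem_nonunits_iff,
      isUnit_iff_norm_eq_one]
    exact ⟨fun h => lt_of_le_of_ne (norm_le_one x) h, fun h => h.ne⟩
  · obtain ⟨a, u, h⟩ := IsDiscreteValuationRing.eq_unit_mul_pow_irreducible
      (x := (⟨z, hz⟩ : 𝒪[K])) (fun h => h0 (congrArg Subtype.val h)) hπ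
    refine ⟨a, ?_⟩
    have h3 : z = ((u : 𝒪[K]) : K) * (π : K) ^ a := congrArg Subtype.val h
    rw [h3, norm_mul, norm_coe_unit, one_mul, norm_pow]

end LocN

theorem loc_tk : T_Loc := by
  intro p _ K _ _ _
  letI := spectralNorm.nontriviallyNormedField ℚ_[p] K
  letI := spectralNorm.normedAlgebra ℚ_[p] K
  haveI : IsUltrametricDist K :=
    IsUltrametricDist.isUltrametricDist_of_forall_norm_add_le_max_norm
      isNonarchimedean_spectralNorm
  haveI := FiniteDimensional.proper ℚ_[p] K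
  exact LocN.main K

end Pool.Agent.P.MP_169bcc_al.BR
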