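import Pool.Agent.P.MP_169bcc_al.BN.Spec
import Pool.Agent.P.MP_169bcc_al.BR.Nil

/-!
Package Nil, nilpotent quotient.
-/

open scoped commutatorElement TensorProduct
open LieAlgebra LieSubalgebra Module

noncomputable section

namespace Pool.Agent.P.MP_169bcc_al.BR

namespace NilN

open NilP

variable {A : Type} [Group A] [Finite A]

/-- The part of the index at one prime. -/
theorem part {p r c d b : ℕ} (hp : p.Prime)
    (hb : ∀ (A : Type) [Group A] [Finite A] (H U : Subgroup A), H.Normal → IsPGroup p H →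
      H.index = r → Nq c H → RankLe H d → U ≤ H → Cov H U → U.relIndex H ≤ b)
    (H U : Subgroup A) (hH : H.Normal) (hn : Group.IsNilpotent H) (hr : H.index = r)
    (hq : Nq c H) (hd : RankLe H d) (hU : U ≤ H) (hc : Cov H U) (j : ℕ)
    (hj : p ^ j ∣ U.relIndex H) : p ^ j ≤ b := by
  obtain ⟨Q, hQ, hQH, hco, k, hk⟩ := exists_Q H hH hn hp
  have hs := QuotientGroup.mk'_surjective Q
  have h1 := hb (A ⧸ Q) (H.map (QuotientGroup.mk' Q)) (U.map (QuotientGroup.mk' Q))
    (hH.map _ hs) (by
      rintro ⟨_, x, hx, rfl⟩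
      refine ⟨k, Subtype.ext ?_⟩
      change QuotientGroup.mk' Q x ^ p ^ k = 1
      rw [← map_pow]
      exact (QuotientGroup.eq_one_iff _).2 (hk x hx))
    (by rw [Subgroup.index_map_eq H hs (by rwa [QuotientGroup.ker_mk']), hr])
    (hq.map _ hs) (rank_map _ hd) (Subgroup.map_mono hU) (cov_map _ hc)
  rw [← Subgroup.relIndex_comap, Subgroup.comap_map_eq, QuotientGroup.ker_mk'] at h1
  rw [← Subgroup.relIndex_mul_relIndex U (U ⊔ Q) H le_sup_left (sup_le hU hQH)] at hj
  have h2 := ((hco.coprime_dvd_right (rel_sup U Q)).pow_left j).dvd_of_dvd_mul_left hj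
  exact (Nat.le_of_dvd (Nat.pos_of_ne_zero Subgroup.index_ne_zero_of_finite) h2).trans h1

end NilN

theorem main_tk (h1 : S_Small) (h2 : T_P) : T_Main := by
  intro r c d hr
  have key : ∀ p : ℕ, ∃ b, 1 ≤ b ∧ (r ≤ p → b = 1) ∧ (p.Prime → ∀ (A : Type) [Group A] [Finite A]
      (H U : Subgroup A), H.Normal → IsPGroup p H → H.index = r → Nq c H → RankLe H d → U ≤ H →
      Cov H U → U.relIndex H ≤ b) := by
    intro p
    by_cases hp : p.Prime
    swap
    · exact ⟨1, le_rfl, fun _ => rfl, fun h => absurd h hp⟩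
    by_cases hpr : r ≤ p
    · refine ⟨1, le_rfl, fun _ => rfl, fun _ A _ _ H U a b c _ _ e f => ?_⟩
      rw [h1 p A H U hp a b (c ▸ hpr) e f, Subgroup.relIndex_self]
    · obtain ⟨b, hb⟩ := h2 p r c d hp hr
      exact ⟨max 1 b, le_max_left _ _, fun h => absurd h hpr, fun _ A _ _ H U a b c q e _ f =>
        (hb A H U a b c q e f).trans (le_max_right _ _)⟩
  choose b b1 b2 b3 using key
  refine ⟨∏ p ∈ Finset.range r, b p, fun A _ _ H U hH hn hi hq hd hU hc => ?_⟩
  have h0 : U.relIndex H ≠ 0 := Subgroup.index_ne_zero_of_finite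
  calc U.relIndex H = ∏ p ∈ (U.relIndex H).primeFactors, p ^ (U.relIndex H).factorization p :=
        (Nat.prod_factorization_pow_eq_self h0).symm
    _ ≤ ∏ p ∈ (U.relIndex H).primeFactors, b p := Finset.prod_le_prod' fun p hp =>
        NilN.part (Nat.prime_of_mem_primeFactors hp) (b3 p (Nat.prime_of_mem_primeFactors hp))
          H U hH hn hi hq hd hU hc _ (Nat.ordProj_dvd _ _)
    _ ≤ ∏ p ∈ (U.relIndex H).primeFactors ∪ Finset.range r, b p :=
        Finset.prod_le_prod_of_subset_of_one_le' Finset.subset_union_left fun p _ _ => b1 p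
    _ = ∏ p ∈ Finset.range r, b p :=
        (Finset.prod_subset Finset.subset_union_right fun p _ hp =>
          b2 p (not_lt.1 fun h => hp (Finset.mem_range.2 h))).symm

end Pool.Agent.P.MP_169bcc_al.BR
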