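import Pool.Agent.P.MP_169bcc_al.BN.Spec
import Pool.Agent.P.MP_169bcc_al.BR.Eps

/-!
Package Res, nilpotent quotient.
-/

open scoped commutatorElement TensorProduct
open LieAlgebra LieSubalgebra Module

noncomputable section

namespace Pool.Agent.P.MP_169bcc_al.BR

namespace ResN

variable {p : ℕ} [Fact p.Prime] {K : Type} [Field K] [Algebra ℚ_[p] K]
  [FiniteDimensional ℚ_[p] K]

theorem key {n : ℕ} (τ : K ≃ₐ[ℚ_[p]] K) (hn : n.Coprime p) (hτ : τ ^ n = 1) (x : K) :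
    spectralNorm ℚ_[p] K (τ x - x) ≤ spectralNorm ℚ_[p] K (τ (τ x - x) - (τ x - x)) := by
  set z := τ x - x with hz
  have h0 : ∑ i ∈ Finset.range n, (τ ^ i) z = 0 := by
    have := Finset.sum_range_sub (fun i => (τ ^ i) x) n
    simp only [hτ, pow_zero, sub_self] at this
    rw [← this]
    refine Finset.sum_congr rfl fun i _ => ?_
    rw [hz, map_sub, pow_succ, AlgEquiv.mul_apply]
  have h1 : algebraMap ℚ_[p] K (n : ℚ_[p]) * z = -∑ i ∈ Finset.range n, ((τ ^ i) z - z) := by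
    rw [Finset.sum_sub_distrib, h0, map_natCast]
    simp
  have h2 : ‖(n : ℚ_[p])‖ = 1 := Padic.norm_natCast_eq_one_iff.2 hn.symm
  have h3 := EpsP.mul (p := p) (algebraMap ℚ_[p] K (n : ℚ_[p])) z
  rw [spectralNorm_extends, h2, one_mul, h1, EpsP.neg] at h3
  rw [← h3]
  exact EpsP.sum_le _ (spectralNorm_nonneg _) (EpsP.pow_le τ z) n

theorem div {x y : K} (hy : y ≠ 0) :
    spectralNorm ℚ_[p] K (x / y) = spectralNorm ℚ_[p] K x / spectralNorm ℚ_[p] K y := by
  rw [eq_div_iff (EpsP.pos hy).ne', ← EpsP.mul, div_mul_cancel₀ _ hy]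

theorem pow (x : K) (j : ℕ) : spectralNorm ℚ_[p] K (x ^ j) = spectralNorm ℚ_[p] K x ^ j := by
  induction j with
  | zero => rw [pow_zero, pow_zero, spectralNorm_one]
  | succ j ih => rw [pow_succ, pow_succ, EpsP.mul, ih]

theorem inv {x : K} (hx : 1 ≤ spectralNorm ℚ_[p] K x) : spectralNorm ℚ_[p] K x⁻¹ ≤ 1 := by
  have h0 : x ≠ 0 := by
    rintro rfl
    rw [spectralNorm_zero] at hx
    exact absurd hx (by norm_num)
  rw [← one_div, div h0, spectralNorm_one]
  exact (div_le_one (EpsP.pos h0)).2 hx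

theorem quot (σ : K ≃ₐ[ℚ_[p]] K) {z : K} (hz : z ≠ 0) : spectralNorm ℚ_[p] K (σ z / z) = 1 := by
  rw [div hz, EpsP.aut, div_self (EpsP.pos hz).ne']

omit [FiniteDimensional ℚ_[p] K] in
theorem exists_theta {k : Type} [Field k] {O : Subring K} (r : O →+* k)
    (hO : ∀ x, x ∈ O ↔ spectralNorm ℚ_[p] K x ≤ 1) (hr : Function.Surjective r)
    (hk : ∀ x : O, r x = 0 ↔ spectralNorm ℚ_[p] K x < 1) {Γ : Type} [Group Γ]
    (ψ : Γ →* (K ≃ₐ[ℚ_[p]] K)) : ∃ θ : Γ →* RingAut k, ∀ g (x y : O), (y : K) = ψ g x →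
      θ g (r x) = r y := by
  have hm : ∀ g (x : O), ψ g x ∈ O := fun g x => by
    rw [hO, EpsP.aut, ← hO]
    exact x.2
  let σ : Γ → O →+* O := fun g =>
    (((ψ g : K ≃ₐ[ℚ_[p]] K) : K →+* K).comp O.subtype).codRestrict O (hm g)
  have hσ : ∀ g (x : O), (σ g x : K) = ψ g x := fun _ _ => rfl
  have hker : ∀ g, RingHom.ker r ≤ RingHom.ker (r.comp (σ g)) := fun g x hx => by
    rw [RingHom.mem_ker, RingHom.comp_apply, hk, hσ, EpsP.aut, ← hk]
    exact hx
  let t : Γ → k →+* k := fun g => r.liftOfSurjective hr ⟨r.comp (σ g), hker g⟩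
  have ht : ∀ g x, t g (r x) = r (σ g x) := fun g x =>
    r.liftOfRightInverse_comp_apply _ _ ⟨r.comp (σ g), hker g⟩ x
  have hmul : ∀ a b c, t (a * b) c = t a (t b c) := fun a b c => by
    obtain ⟨x, rfl⟩ := hr c
    rw [ht, ht, ht]
    congr 1
    ext
    rw [hσ, hσ, hσ, map_mul, AlgEquiv.mul_apply]
  have hone : ∀ c, t 1 c = c := fun c => by
    obtain ⟨x, rfl⟩ := hr c
    rw [ht]
    congr 1
    ext
    rw [hσ, map_one, AlgEquiv.one_apply]
  let e : Γ → RingAut k := fun g => RingEquiv.ofRingHom (t g) (t g⁻¹)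
    (RingHom.ext fun c => by rw [RingHom.comp_apply, ← hmul, mul_inv_cancel, hone]; rfl)
    (RingHom.ext fun c => by rw [RingHom.comp_apply, ← hmul, inv_mul_cancel, hone]; rfl)
  refine ⟨MonoidHom.mk' e fun a b => RingEquiv.ext fun c => hmul a b c, fun g x y h => ?_⟩
  exact (ht g x).trans (congrArg r (Subtype.ext h.symm))

end ResN

open ResN in
theorem res_tk (h1 : T_Loc) (h2 : T_Fin) : T_Res := by
  intro p _ K _ _ _ _ _ Γ _ _ ψ hψ hnil h6 hp
  obtain ⟨k, _, _, O, r, π, hO, hr, hk, hπ, hpow⟩ := h1 p K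
  obtain ⟨θ, hθ⟩ := exists_theta r hO hr hk ψ
  have hq : ∀ g {z : K}, z ≠ 0 → ψ g z / z ∈ O := fun g z hz => (hO _).2 (quot _ hz).le
  have hm : ∀ g (x : O), ψ g x ∈ O := fun g x => by
    rw [hO, EpsP.aut, ← hO]
    exact x.2
  have hne : ∀ x : O, spectralNorm ℚ_[p] K x = 1 → r x ≠ 0 := fun x hx h => by
    rw [hk, hx] at h
    exact lt_irrefl _ h
  have hw0 : ∀ w : K, spectralNorm ℚ_[p] K w = 1 → w ≠ 0 := by
    rintro _ h rfl
    rw [spectralNorm_zero] at h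
    exact zero_ne_one h
  have hunit : ∀ a, θ a = 1 → ∀ w (hw : spectralNorm ℚ_[p] K w = 1),
      r ⟨ψ a w / w, hq a (hw0 w hw)⟩ = 1 := fun a ha w hw => by
    have hwO : w ∈ O := (hO _).2 hw.le
    have e := hθ a ⟨w, hwO⟩ (⟨ψ a w / w, hq a (hw0 w hw)⟩ * ⟨w, hwO⟩)
      (div_mul_cancel₀ _ (hw0 w hw))
    rw [ha, map_mul] at e
    exact mul_right_cancel₀ (hne ⟨w, hwO⟩ hw) (e.symm.trans (one_mul _).symm)
  have hcard : Nat.card Γ ≤ Nat.card k := by
    refine h2 k Γ θ (fun a => r ⟨ψ a π / π, hq a hπ⟩) hnil h6 (fun a b ha _ => ?_)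
      (fun a _ => hne _ (quot _ hπ)) (fun a ha hχ => ?_) (fun g a ha => ?_)
    · have e := hθ a ⟨ψ b π / π, hq b hπ⟩ ⟨_, hm a ⟨ψ b π / π, hq b hπ⟩⟩ rfl
      rw [ha] at e
      rw [mul_comm (r _), show r ⟨ψ b π / π, hq b hπ⟩ = _ from e, ← map_mul]
      congr 1
      ext
      have h0 : ψ a π ≠ 0 := (map_ne_zero _).2 hπ
      simp only [map_mul, AlgEquiv.mul_apply, MulMemClass.mk_mul_mk, map_div₀]
      field_simp
    · have hlt : ∀ z ∈ O, z ≠ 0 →
          spectralNorm ℚ_[p] K (ψ a z - z) < spectralNorm ℚ_[p] K z := fun z hz hz0 => by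
        obtain ⟨j, hj⟩ := hpow z hz hz0
        have hw : spectralNorm ℚ_[p] K (z / π ^ j) = 1 := by
          rw [div (pow_ne_zero j hπ), pow, hj, div_self (pow_ne_zero j (EpsP.pos hπ).ne')]
        have e : (⟨ψ a z / z, hq a hz0⟩ : O) =
            ⟨ψ a π / π, hq a hπ⟩ ^ j * ⟨_, hq a (hw0 _ hw)⟩ := by
          ext
          have h0 : ψ a π ≠ 0 := (map_ne_zero _).2 hπ
          simp only [MulMemClass.coe_mul, SubmonoidClass.mk_pow, map_div₀, map_pow, div_pow]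
          field_simp
        have e2 : r (⟨ψ a z / z, hq a hz0⟩ - 1) = 0 := by
          rw [map_sub, e, map_mul, map_pow, hunit a ha _ hw, show r _ = 1 from hχ]
          simp
        rw [hk] at e2
        have e3 : ψ a z - z = (ψ a z / z - 1) * z := by field_simp
        rw [e3, EpsP.mul]
        exact mul_lt_of_lt_one_left (EpsP.pos hz0) e2
      have hfix : ∀ x ∈ O, ψ a x = x := fun x hx => by
        by_contra hc
        exact absurd (key (ψ a) hp (by rw [← map_pow, pow_card_eq_one', map_one]) x)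
          (not_le.2 (hlt _ (O.sub_mem (hm a ⟨x, hx⟩) hx) (sub_ne_zero.2 hc)))
      refine hψ (AlgEquiv.ext fun x => ?_)
      rw [map_one, AlgEquiv.one_apply]
      rcases le_total (spectralNorm ℚ_[p] K x) 1 with h | h
      · exact hfix x ((hO _).2 h)
      · have := hfix _ ((hO _).2 (inv h))
        rwa [map_inv₀, inv_inj] at this
    · have hw := quot (ψ g⁻¹) hπ
      have e := hθ g (⟨ψ a π / π, hq a hπ⟩ * ⟨_, hq a (hw0 _ hw)⟩)
        ⟨ψ (g * a * g⁻¹) π / π, hq _ hπ⟩ (by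
          have h0 : ψ a π ≠ 0 := (map_ne_zero _).2 hπ
          have h3 : ψ g⁻¹ π ≠ 0 := (map_ne_zero _).2 hπ
          have h4 : ψ a π / π * (ψ a (ψ g⁻¹ π / π) / (ψ g⁻¹ π / π)) =
              ψ a (ψ g⁻¹ π) / ψ g⁻¹ π := by
            rw [map_div₀]
            field_simp
          have h5 : ψ g (ψ g⁻¹ π) = π := by
            rw [← AlgEquiv.mul_apply, ← map_mul, mul_inv_cancel, map_one, AlgEquiv.one_apply]
          change ψ (g * a * g⁻¹) π / π = ψ g (ψ a π / π * (ψ a (ψ g⁻¹ π / π) / (ψ g⁻¹ π / π)))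
          rw [h4, map_div₀, h5, map_mul, map_mul, AlgEquiv.mul_apply, AlgEquiv.mul_apply])
      rw [map_mul, hunit a ha _ hw, mul_one] at e
      exact e.symm
  obtain ⟨e⟩ : Nonempty (Fin (Nat.card Γ) ↪ k) := by
    have := Fintype.ofFinite k
    exact Function.Embedding.nonempty_of_card_le (by simpa using hcard)
  choose s hs using hr
  refine ⟨fun i => s (e i), fun i => EpsP.integral ((hO _).1 (s (e i)).2), fun i j hij => ?_⟩
  have h3 : r (s (e i) - s (e j)) ≠ 0 := by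
    rw [map_sub, hs, hs]
    exact sub_ne_zero.2 (e.injective.ne hij)
  refine ⟨fun h => h3 ?_, EpsP.integral (inv ?_)⟩
  · rw [Subtype.ext h, sub_self, map_zero]
  · exact not_lt.1 fun h => h3 ((hk _).2 h)

end Pool.Agent.P.MP_169bcc_al.BR
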