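import Pool.Agent.P.MP_169bcc_al.BN.Spec
import Pool.Agent.P.MP_169bcc_al.BR.SS
import Pool.Agent.P.MP_169bcc_al.BR.Ideal

/-!
Package SS, nilpotent quotient.
-/

open scoped commutatorElement TensorProduct
open LieAlgebra LieSubalgebra Module

noncomputable section

namespace Pool.Agent.P.MP_169bcc_al.BR

namespace SSN

variable {F g G : Type} [Field F] [LieRing g] [LieAlgebra F g] [Group G]
  (ρ : G →* Module.End F g)

/-- The stabiliser of an ideal. -/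
def stab (j : LieIdeal F g) : Subgroup G where
  carrier := {a | ∀ v, ρ a v ∈ j ↔ v ∈ j}
  one_mem' := fun v => by rw [rep_one]
  mul_mem' := fun {a b} ha hb v => by rw [rep_mul, ha, hb]
  inv_mem' := fun {a} ha v => by rw [← ha (ρ a⁻¹ v), rep_inv_right]

theorem mem_stab (j : LieIdeal F g) (a : G) : a ∈ stab ρ j ↔ ∀ v, ρ a v ∈ j ↔ v ∈ j := Iff.rfl

theorem mem_of_pow {j : LieIdeal F g} {b : G} {n : ℕ} (hn : n ≠ 0) (h1 : b ^ n = 1)
    (hb : ∀ v ∈ j, ρ b v ∈ j) : b ∈ stab ρ j := by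
  have hk : ∀ k : ℕ, ∀ v ∈ j, ρ (b ^ k) v ∈ j := fun k => by
    induction k with
    | zero => intro v hv; rwa [pow_zero, rep_one]
    | succ k ih => intro v hv; rw [pow_succ, rep_mul]; exact ih _ (hb v hv)
  refine fun v => ⟨fun hv => ?_, hb v⟩
  obtain ⟨k, rfl⟩ := Nat.exists_eq_succ_of_ne_zero hn
  have := hk k _ hv
  rwa [← rep_mul, ← pow_succ, h1, rep_one] at this

end SSN

open SSP SSN IdealP in
theorem ss_tk (h1 : S_Cen) (h2 : T_Simple) : T_SS := by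
  intro p _ n c g _ _ _ _ _ _ G _ H ρ Λ u h
  have hall : ∀ j : {I : LieIdeal ℚ_[p] g // IsAtom I}, ∀ z ∈ j.1, z ∈ u := by
    rintro ⟨j, hj⟩
    have hS : ∀ a ∈ stab ρ j, ∀ v ∈ j, ρ a v ∈ j := fun a ha v hv => (ha v).2 hv
    suffices e : u.comap j.incl = ⊤ from fun z hz =>
      show (⟨z, hz⟩ : j) ∈ u.comap j.incl from e ▸ LieSubalgebra.mem_top _
    have := IsSemisimple.isSimple_of_isAtom j hj
    refine h2 p n c j (stab ρ j) (H.subgroupOf (stab ρ j)) (res hS) _ _ ⟨h.six, h.cop,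
      h.nq.comap (stab ρ j).subtype, act_res hS h.act, fun a => ?_,
      fun a x y => Subtype.ext (h.lie a.1 x.1 y.1), fun z => ?_⟩
    · obtain ⟨b, hb1, hb2, hb3⟩ := h.tame a.1
      have hb : b ∈ stab ρ j := mem_of_pow ρ (ne_zero_of_six h.six) hb1
        (hb3 j.toSubmodule (hS a.1 a.2))
      refine ⟨⟨b, hb⟩, Subtype.ext hb1, hb2, fun W hW v hv => ?_⟩
      obtain ⟨w, hw, e⟩ := hb3 (W.map j.incl.toLinearMap) (by
        rintro _ ⟨w, hw, rfl⟩
        exact ⟨_, hW w hw, rfl⟩) v.1 ⟨v, hv, rfl⟩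
      have e' : res hS ⟨b, hb⟩ v = w := Subtype.ext e.symm
      rw [e']
      exact hw
    · obtain ⟨a, ha, hz⟩ := cover ρ h.lie u (h1 _ g u h.covA) h.cov j hj z.1 z.2
      have ha' : a⁻¹ ∈ stab ρ j := fun v => by rw [← mem_img ρ h.lie, ha]
      exact ⟨⟨a, (stab ρ j).inv_mem_iff.1 ha'⟩, hz⟩
  refine eq_top_iff.2 fun z _ => ?_
  have hz : z ∈ ⨆ j : {I : LieIdeal ℚ_[p] g // IsAtom I}, j.1 := by
    have e := IsSemisimple.sSup_atoms_eq_top (R := ℚ_[p]) (L := g)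
    rw [sSup_eq_iSup'] at e
    exact e.ge (LieSubmodule.mem_top z)
  exact LieSubmodule.iSup_induction _ (motive := fun z => z ∈ u) hz hall u.zero_mem
    fun x y hx hy => u.add_mem hx hy

end Pool.Agent.P.MP_169bcc_al.BR
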