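import Pool.Agent.P.MP_169bcc_al.BN.Spec
import Pool.Agent.P.MP_169bcc_al.BR.Simple
import Pool.Agent.P.MP_169bcc_al.BR.Field

/-!
Package Simple, nilpotent quotient.
-/

open scoped commutatorElement TensorProduct
open LieAlgebra LieSubalgebra Module

noncomputable section

namespace Pool.Agent.P.MP_169bcc_al.BR

theorem simple_tk (h1 : S_Cent) (h2 : S_Cen) (h3 : T_Gal) (h4 : T_Field) (h5 : T_Inner)
    (h6 : S_FR) (h7 : S_GenH) : T_Simple := by
  intro p _ n c g _ _ _ _ _ _ G _ H ρ Λ u h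
  obtain ⟨K, _, _, _, ι, φ, hφ, hcen⟩ := h1 ℚ_[p] g G ρ h.lie
  have hH := h.act.normal
  let N : Subgroup G :=
    { carrier := {a | ∀ x, (∀ k ∈ H, φ k x = x) → φ a x = x}
      one_mem' := fun x _ => by rw [map_one]; rfl
      mul_mem' := fun {a b} ha hb x hx => by rw [FieldP.aut_mul, hb x hx, ha x hx]
      inv_mem' := fun {a} ha x hx => by
        conv_lhs => rw [← ha x hx]
        rw [← FieldP.aut_mul, inv_mul_cancel, map_one]
        rfl }
  have hN : N.Normal := ⟨fun a ha y x hx => by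
    rw [FieldP.aut_mul, FieldP.aut_mul,
      ha _ (FieldP.mem_fix.1 (FieldP.fix_stab hH (FieldP.mem_fix.2 hx) y⁻¹)), ← FieldP.aut_mul,
      mul_inv_cancel, map_one]
    rfl⟩
  let S : Subgroup G :=
    { carrier := {s | ∀ v, ρ s v ∈ u ↔ v ∈ u}
      one_mem' := fun v => by rw [rep_one]
      mul_mem' := fun {a b} ha hb v => by rw [rep_mul, ha, hb]
      inv_mem' := fun {a} ha v => by rw [← ha, rep_inv_right] }
  have key : N ≤ S ⊔ H := by
    refine h.nq.cover hN le_sup_right fun a ha => ?_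
    obtain ⟨b, hb, hab, -⟩ := h.tame a
    have hbN : b ∈ N := by
      have := N.mul_mem ha (show a⁻¹ * b ∈ N from fun x hx => hx _ hab)
      rwa [mul_inv_cancel_left] at this
    have hσ := h3 p n g G H ρ Λ K ι φ b h.cop h.act hφ hb hbN
    obtain ⟨x, hreg, hfix⟩ := h5 ℚ_[p] g (ρ b) n h.six (h.aut b)
      (by rw [← map_pow, hb, map_one]) (fun e he => by
        obtain ⟨e, rfl⟩ := (hcen e).1 he
        exact hσ e)
    obtain ⟨y, hy⟩ := h.cov x
    obtain ⟨u', h', hu'⟩ := h.conj y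
    have hle : engel ℚ_[p] x ≤ u' := h6 ℚ_[p] g u' h'.covA x ((hu' x).2 hy) hreg
    obtain ⟨z, hz, hP⟩ := h7 ℚ_[p] g x hreg
    obtain ⟨P, hP⟩ := hP (ρ b) 1 (fun v hv => by rw [hfix v hv, one_smul])
      (fun v hv w => by rw [h.lie, hfix v hv])
    have s1 : ∀ v ∈ u, ρ (y * b * y⁻¹) v ∈ u := fun v hv => by
      rw [rep_mul, rep_mul, ← hu', hP]
      exact SimpleP.aeval_mem u' (hle hz) P _ ((hu' _).2 (by rwa [rep_inv_right]))
    have s2 : ∀ m : ℕ, ∀ v ∈ u, ρ ((y * b * y⁻¹) ^ m) v ∈ u := by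
      intro m
      induction m with
      | zero => intro v hv; rwa [pow_zero, rep_one]
      | succ m ih => intro v hv; rw [pow_succ, rep_mul]; exact ih _ (s1 v hv)
    have s3 : y * b * y⁻¹ ∈ S := fun v => ⟨fun hv => by
      have := s2 (n - 1) _ hv
      rwa [← rep_mul, ← pow_succ, Nat.sub_add_cancel (Nat.pos_of_ne_zero (ne_zero_of_six h.six)),
        conj_pow, hb, mul_one, mul_inv_cancel, rep_one] at this, s1 v⟩
    refine ⟨y, ?_⟩
    have e : y * a * y⁻¹ = y * b * y⁻¹ * (y * (a⁻¹ * b)⁻¹ * y⁻¹) := by group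
    rw [e]
    exact Subgroup.mul_mem_sup s3 (hH.conj_mem _ (H.inv_mem hab) y)
  have top := h4 p n c g G H ρ Λ K ι φ u.toSubmodule h.six h.cop h.nq (h.tame.pow_mem hH) h.act hφ
    (fun e v hv => h2 _ g u h.covA (ι e) ((hcen _).2 ⟨e, rfl⟩) v hv) h.cov fun a ha => by
      obtain ⟨s, hs, k, hk, rfl⟩ := Subgroup.mem_sup_of_normal_right.1 (key ha)
      exact ⟨s, k, hk, rfl, fun v hv => (hs v).1 hv⟩
  exact eq_top_iff.2 fun v _ => (top.ge Submodule.mem_top : v ∈ u.toSubmodule)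

end Pool.Agent.P.MP_169bcc_al.BR
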