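import Pool.Agent.P.MP_169bcc_al.BR.All
import Pool.Agent.P.MP_169bcc_al.BN.Dec
import Pool.Agent.P.MP_169bcc_al.BN.Lim
import Pool.Agent.P.MP_169bcc_al.BN.Nil
import Pool.Agent.P.MP_169bcc_al.BN.LieZ
import Pool.Agent.P.MP_169bcc_al.BN.Fin
import Pool.Agent.P.MP_169bcc_al.BN.Loc
import Pool.Agent.P.MP_169bcc_al.BN.Res
import Pool.Agent.P.MP_169bcc_al.BN.Eps
import Pool.Agent.P.MP_169bcc_al.BN.Field
import Pool.Agent.P.MP_169bcc_al.BN.Kre
import Pool.Agent.P.MP_169bcc_al.BN.Kac2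
import Pool.Agent.P.MP_169bcc_al.BN.Kac
import Pool.Agent.P.MP_169bcc_al.BN.Inner
import Pool.Agent.P.MP_169bcc_al.BN.Simple
import Pool.Agent.P.MP_169bcc_al.BN.SS
import Pool.Agent.P.MP_169bcc_al.BN.Lie
import Pool.Agent.P.MP_169bcc_al.BN.Chief
import Pool.Agent.P.MP_169bcc_al.BN.Iter

/-!
Covering subgroups of nilpotent groups of bounded rank, nilpotent quotient: assembly.
-/

namespace Pool.Agent.P.MP_169bcc_al.BR

theorem simpleN : T_Simple :=
  simple_tk cent_ok (cen_ok fr) (gal_tk pg_ok)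
    (field_tk chief_tk (eps_tk (res_tk loc_tk fin_tk)) lat_ok)
    (inner_tk (kac_tk (kac2_tk kre_tk)) (diag_tk (root_tk (root_ok graph_ok)))) fr genH_ok

theorem lieZN : T_LieZ := lieZ_tk nak_ok (lie_tk (ss_tk (cen_ok fr) simpleN))

theorem mainN : T_Main :=
  main_tk small_ok (p_tk (pe_ok pe1_ok) mu_ok
    (w_tk dec_tk calcA_ok calcW_ok calcB_ok relA_ok relB_ok lw_ok wd_ok (lim_tk lieZN)))

end Pool.Agent.P.MP_169bcc_al.BR
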