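import Pool.Agent.P.MP_169bcc_al.BN.Spec
import Pool.Agent.P.MP_169bcc_al.BR.Kac2

/-!
Package Kac2, nilpotent quotient.
-/

open scoped commutatorElement TensorProduct
open LieAlgebra LieSubalgebra Module

noncomputable section

namespace Pool.Agent.P.MP_169bcc_al.BR

namespace Kac2N

variable {k c : Type} [Field k] [LieRing c] [LieAlgebra k c]

/-- the derived algebra is spanned by the brackets -/
theorem le_of (S : Submodule k c) (h : ∀ x y : c, ⁅x, y⁆ ∈ S) {v : c}
    (hv : v ∈ LieModule.lowerCentralSeries k c c 1) : v ∈ S := by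
  rw [LieModule.lowerCentralSeries_succ, ← LieSubmodule.mem_toSubmodule,
    LieSubmodule.lieIdeal_oper_eq_linear_span'] at hv
  refine Submodule.span_le.2 ?_ hv
  rintro _ ⟨x, -, y, -, rfl⟩
  exact h x y

end Kac2N

open Kac2P Kac2N

theorem kac2_tk (h : T_Kre) : T_Kac2 := by
  intro k c M _ _ _ _ _ _ _ _ _ _ _ τ n hn hA hτ hker hfix
  let d : LieIdeal k c := LieModule.lowerCentralSeries k c c 1
  let B : LinearMap.BilinForm k c := LieModule.traceForm k c M
  have h0 : ∀ z : c, LieModule.traceForm k c M z = 0 → z = 0 := fun z hz => by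
    rwa [← LinearMap.mem_ker, hker] at hz
  have cen : ∀ w ∈ B.orthogonal d.toSubmodule, ∀ x : c, ⁅w, x⁆ = 0 := fun w hw x => by
    refine h0 _ (LinearMap.ext fun y => ?_)
    rw [LieModule.traceForm_apply_lie_apply, LieModule.traceForm_comm]
    exact hw _ (lie_mem x y)
  have hc : IsCompl d.toSubmodule (B.orthogonal d.toSubmodule) := by
    refine (LinearMap.BilinForm.isCompl_orthogonal_iff_disjoint
      (LieModule.traceForm_isSymm k c M).isRefl).2 (Submodule.disjoint_def.2 fun z hz hw => ?_)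
    refine h0 _ (cen_ker hz ((LieModule.mem_maxTrivSubmodule k c c _).2 fun x => ?_))
    rw [← lie_skew, cen z hw, neg_zero]
  have dec : ∀ x : c, ∃ a : d, ∃ w ∈ B.orthogonal d.toSubmodule, x = a + w := fun x => by
    obtain ⟨a, ha, w, hw, e⟩ := Submodule.mem_sup.1 (hc.sup_eq_top ▸ Submodule.mem_top (x := x))
    exact ⟨⟨a, ha⟩, w, hw, e.symm⟩
  have hd : ∀ v ∈ d.toSubmodule, τ v ∈ d.toSubmodule := fun v hv =>
    le_of (d.toSubmodule.comap τ) (fun x y => by
      show τ ⁅x, y⁆ ∈ d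
      rw [hA.lie]
      exact lie_mem _ _) hv
  let τ' : Module.End k d := τ.restrict hd
  have hi : Function.Injective τ' := fun a b e =>
    Subtype.ext (hA.bij.1 (congrArg Subtype.val e))
  have hp : ∀ (m : ℕ) (a : d), (((τ' ^ m) a : d) : c) = (τ ^ m) a := fun m a => by
    induction m with
    | zero => rfl
    | succ m ih => rw [pow_succ', pow_succ', Module.End.mul_apply, Module.End.mul_apply, ← ih]; rfl
  have hb : ∀ S : Submodule k d, (∀ x y : d, ⁅x, y⁆ ∈ S) → ∀ x y : c,
      ⁅x, y⁆ ∈ S.map d.toSubmodule.subtype := fun S hS x y => by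
    obtain ⟨a, w, hw, rfl⟩ := dec x
    obtain ⟨b, w', hw', rfl⟩ := dec y
    refine ⟨⁅a, b⁆, hS a b, ?_⟩
    rw [add_lie, cen w hw, add_zero, lie_add, ← lie_skew _ w', cen w' hw', neg_zero, add_zero]
    rfl
  have hz := h k d τ' n hn ⟨⟨hi, LinearMap.injective_iff_surjective.1 hi⟩,
    fun x y => Subtype.ext (hA.lie x y)⟩
    (LinearMap.ext fun a => Subtype.ext (by rw [hp, hτ]; rfl))
    (fun S hS => eq_top_iff.2 fun v _ => by
      obtain ⟨u, hu, e⟩ := le_of _ (hb S hS) v.2
      exact (Subtype.ext e : u = v) ▸ hu)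
    fun y hy => Subtype.ext (hfix y y.2 (congrArg Subtype.val hy))
  exact ⟨fun a b => congrArg Subtype.val (hz ⟨_, lie_mem a b⟩)⟩

end Pool.Agent.P.MP_169bcc_al.BR
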