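import Pool.Agent.P.MP_169bcc_al.BR.BC

/-!
Covering subgroups of nilpotent groups of bounded rank, nilpotent quotient of order prime to six:
statements of the steps and small tools.
-/

open scoped commutatorElement TensorProduct
open LieAlgebra LieSubalgebra Module

noncomputable section

namespace Pool.Agent.P.MP_169bcc_al.BR

section Grp

variable {G : Type} [Group G]

/-- A central series of length `c` from `H` to the whole group. -/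
def Nq (c : ℕ) (H : Subgroup G) : Prop :=
  ∃ Z : ℕ → Subgroup G, Z 0 ≤ H ∧ (∀ x, x ∈ Z c) ∧ ∀ i, ∀ x ∈ Z (i + 1), ∀ y, ⁅x, y⁆ ∈ Z i

/-- Every coset of `H` contains a power of order dividing `n`. -/
structure Dn (n c : ℕ) (H : Subgroup G) : Prop where
  normal : H.Normal
  nq : Nq c H
  tame : ∀ a : G, ∃ e : ℕ, (a ^ e) ^ n = 1 ∧ a⁻¹ * a ^ e ∈ H

/-- Tame parts. -/
def Tame {F V : Type} [Field F] [AddCommGroup V] [Module F V] (n : ℕ) (H : Subgroup G)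
    (ρ : G →* Module.End F V) : Prop :=
  ∀ a, ∃ b, b ^ n = 1 ∧ a⁻¹ * b ∈ H ∧
    ∀ W : Submodule F V, (∀ v ∈ W, ρ a v ∈ W) → ∀ v ∈ W, ρ b v ∈ W

theorem Nq.mono {c : ℕ} {H K : Subgroup G} (h : Nq c H) (hK : H ≤ K) : Nq c K := by
  obtain ⟨Z, h0, h1, h2⟩ := h
  exact ⟨Z, h0.trans hK, h1, h2⟩

theorem Nq.comap {G' : Type} [Group G'] {c : ℕ} {H : Subgroup G} (h : Nq c H) (f : G' →* G) :
    Nq c (H.comap f) := by
  obtain ⟨Z, h0, h1, h2⟩ := h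
  refine ⟨fun i => (Z i).comap f, Subgroup.comap_mono h0, fun x => h1 _, fun i x hx y => ?_⟩
  rw [Subgroup.mem_comap, map_commutatorElement]
  exact h2 i _ hx _

theorem Nq.map {G' : Type} [Group G'] {c : ℕ} {H : Subgroup G} (h : Nq c H) (f : G →* G')
    (hf : Function.Surjective f) : Nq c (H.map f) := by
  obtain ⟨Z, h0, h1, h2⟩ := h
  refine ⟨fun i => (Z i).map f, Subgroup.map_mono h0, fun x => ?_, ?_⟩
  · obtain ⟨x, rfl⟩ := hf x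
    exact ⟨x, h1 x, rfl⟩
  · rintro i _ ⟨x, hx, rfl⟩ y
    obtain ⟨y, rfl⟩ := hf y
    exact ⟨_, h2 i x hx y, map_commutatorElement f x y⟩

/-- Images that kill `H` are nilpotent. -/
theorem Nq.nilpotent {G' : Type} [Group G'] {c : ℕ} {H : Subgroup G} (h : Nq c H) (f : G →* G')
    (hf : Function.Surjective f) (hH : H ≤ f.ker) : Group.IsNilpotent G' := by
  obtain ⟨Z, h0, h1, h2⟩ := h.map f hf
  refine (Subgroup.nilpotent_iff_finite_ascending_central_series G').2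
    ⟨c, Z, ⟨eq_bot_iff.2 (h0.trans ?_), fun x n hx g => h2 n x hx g⟩, eq_top_iff.2 fun x _ => h1 x⟩
  exact ((Subgroup.map_eq_bot_iff H).2 hH).le

/-- No proper subgroup above `H` covers a normal subgroup. -/
theorem Nq.cover {c : ℕ} {H N S : Subgroup G} (h : Nq c H) (hN : N.Normal) (hS : H ≤ S)
    (hc : ∀ x ∈ N, ∃ y, y * x * y⁻¹ ∈ S) : N ≤ S := by
  obtain ⟨Z, h0, h1, h2⟩ := h
  have key : ∀ i, ∀ x ∈ N, x ∈ Z i → x ∈ S := by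
    intro i
    induction i with
    | zero => exact fun x _ hx => hS (h0 hx)
    | succ i ih =>
      intro x hx hz
      obtain ⟨y, hy⟩ := hc x hx
      have e : x = ⁅x, y⁆ * (y * x * y⁻¹) := by simp only [commutatorElement_def]; group
      rw [e]
      refine S.mul_mem (ih _ ?_ (h2 i x hz y)) hy
      have e2 : ⁅x, y⁆ = x * (y * x⁻¹ * y⁻¹) := by simp only [commutatorElement_def]; group
      rw [e2]
      exact N.mul_mem hx (hN.conj_mem _ (N.inv_mem hx) y)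
  exact fun x hx => key c x hx (h1 x)

theorem Tame.pow_mem {F V : Type} [Field F] [AddCommGroup V] [Module F V] {n : ℕ}
    {H : Subgroup G} {ρ : G →* Module.End F V} (h : Tame n H ρ) (hH : H.Normal) (a : G) :
    a ^ n ∈ H := by
  obtain ⟨b, h1, h2, -⟩ := h a
  have := (Cg.pow hH (show Cg H a b from h2) n).symm
  rwa [h1, cg_one] at this

end Grp

/-! ### Groups -/

def T_Nq : Prop := ∀ (A : Type) [Group A] [Finite A] (H : Subgroup A) [H.Normal],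
  Group.IsNilpotent (A ⧸ H) → Nq H.index H

def T_Dec : Prop := ∀ p n : ℕ, p.Prime → n ≠ 0 → ∃ m, m ∣ n ∧ m.Coprime p ∧ ∀ (c : ℕ) (A : Type)
  [Group A] [Finite A] (H : Subgroup A), H.Normal → IsPGroup p H → H.index = n → Nq c H →
  ∃ H' : Subgroup A, Dn m c H' ∧ ∀ h ∈ H', h ^ p ^ n ∈ H

def T_Lim : Prop := ∀ (p : ℕ) [Fact p.Prime] (n c s B : ℕ), n.Coprime 6 → n.Coprime p →
  ∃ i, 1 ≤ i ∧ ∀ (A : Type) [Group A] (H H' : Subgroup A), Dn n c H' →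
    (∀ h ∈ H', h ^ p ^ s ∈ H) → IsEmpty (WD p i B A H)

def T_W : Prop := ∀ p n c B : ℕ, p.Prime → n.Coprime 6 → ∃ N, ∀ (A : Type) [Group A]
  [Finite A] (H U : Subgroup A) (P : ℕ → Subgroup A), H.Normal → IsPGroup p H → H.index = n →
  Nq c H → Cov H U → Filt p P → P 0 ≤ H → (P 1).index ≤ B → Win p N P U → Full P U 0

/-- The theorem for `p`-groups. -/
def T_P : Prop := ∀ p n c d : ℕ, p.Prime → n.Coprime 6 → ∃ b, ∀ (A : Type) [Group A]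
  [Finite A] (H U : Subgroup A), H.Normal → IsPGroup p H → H.index = n → Nq c H → RankLe H d →
  Cov H U → U.relIndex H ≤ b

/-- The theorem. -/
def T_Main : Prop := ∀ n c d : ℕ, n.Coprime 6 → ∃ b, ∀ (A : Type) [Group A] [Finite A]
  (H U : Subgroup A), H.Normal → Group.IsNilpotent H → H.index = n → Nq c H → RankLe H d →
  U ≤ H → Cov H U → U.relIndex H ≤ b

/-! ### Lattices and local fields -/

def T_LieZ : Prop := ∀ (p : ℕ) [Fact p.Prime] (n c : ℕ) (L : Type) [LieRing L]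
  [LieAlgebra ℤ_[p] L] [Module.Finite ℤ_[p] L] (G : Type) [Group G] (H : Subgroup G)
  (ρ : G →* Module.End ℤ_[p] L) (M : LieSubalgebra ℤ_[p] L) (T : Finset G), n.Coprime 6 →
  n.Coprime p → H.Normal → Nq c H → (∀ a (x y : L), ρ a ⁅x, y⁆ = ⁅ρ a x, ρ a y⁆) →
  (∀ x, ∃ a, ρ a x ∈ M) →
  (∀ h ∈ H, ∀ m : ℕ, ∃ N : ℕ, ∀ x, ∃ v, ρ (h ^ p ^ N) x = x + p ^ m • v) →
  (∀ a, ∃ b, b ^ n = 1 ∧ a⁻¹ * b ∈ H ∧
    ∀ m : ℕ, ∃ k : ℕ, ∀ x, ∃ v, ρ b x = ρ (a ^ k) x + p ^ m • v) →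
  (∀ a, ∃ t ∈ T, ∃ X : L, (∀ y, ∃ v, ρ (t⁻¹ * a) y = y + p ^ 2 • v) ∧ ∀ j y, ∃ v,
    ρ ((t⁻¹ * a) ^ p ^ j) y = y + p ^ j • ⁅X, y⁆ + p ^ (2 * j) • v) →
  ∃ k : ℕ, ∀ x : L, p ^ k • x ∈ M

def T_Chief : Prop := ∀ (p : ℕ) [Fact p.Prime] (V : Type) [AddCommGroup V] [Module ℚ_[p] V]
  [Module ℤ_[p] V] [IsScalarTower ℤ_[p] ℚ_[p] V] (G : Type) [Group G] (H : Subgroup G)
  (t : ℕ → G) (ρ : G →* Module.End ℚ_[p] V) (Λ : Submodule ℤ_[p] V) (W : Submodule ℚ_[p] V)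
  (E : Set (Module.End ℚ_[p] V)) (k : ℕ) (ε : Fin k → Module.End ℚ_[p] V), Act p H ρ Λ →
  (∀ e ∈ E, ∀ v ∈ Λ, e v ∈ Λ) → (∀ e ∈ E, ∀ a v, ρ a v ∈ W → ρ a (e v) ∈ W) →
  (∀ e ∈ E, ∀ h ∈ H, e * ρ h = ρ h * e) → (∀ i, ε i ∈ E) →
  (∀ i j, i ≠ j → ∃ δ ∈ E, δ * (ε i - ε j) = 1) →
  (∀ v, ∃ i < k, ∃ h ∈ H, ρ (t i * h) v ∈ W) → W = ⊤

/-- Nilpotent groups of semilinear maps of a finite field. -/
def T_Fin : Prop := ∀ (k : Type) [Field k] [Finite k] (Γ : Type) [Group Γ] [Finite Γ]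
  (θ : Γ →* RingAut k) (χ : Γ → k), Group.IsNilpotent Γ → (Nat.card Γ).Coprime 6 →
  (∀ a b, θ a = 1 → θ b = 1 → χ (a * b) = χ a * χ b) → (∀ a, θ a = 1 → χ a ≠ 0) →
  (∀ a, θ a = 1 → χ a = 1 → a = 1) → (∀ g a, θ a = 1 → χ (g * a * g⁻¹) = θ g (χ a)) →
  Nat.card Γ ≤ Nat.card k

/-- The residue field and a uniformiser. -/
def T_Loc : Prop := ∀ (p : ℕ) [Fact p.Prime] (K : Type) [Field K] [Algebra ℚ_[p] K]
  [FiniteDimensional ℚ_[p] K], ∃ (k : Type) (_ : Field k) (_ : Finite k) (O : Subring K)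
  (r : O →+* k) (π : K), (∀ x, x ∈ O ↔ spectralNorm ℚ_[p] K x ≤ 1) ∧ Function.Surjective r ∧
  (∀ x : O, r x = 0 ↔ spectralNorm ℚ_[p] K x < 1) ∧ π ≠ 0 ∧
  ∀ z ∈ O, z ≠ 0 → ∃ a : ℕ, spectralNorm ℚ_[p] K z = spectralNorm ℚ_[p] K π ^ a

def T_Res : Prop := ∀ (p : ℕ) [Fact p.Prime] (K : Type) [Field K] [Algebra ℚ_[p] K]
  [Algebra ℤ_[p] K] [IsScalarTower ℤ_[p] ℚ_[p] K] [FiniteDimensional ℚ_[p] K] (Γ : Type)
  [Group Γ] [Finite Γ] (ψ : Γ →* (K ≃ₐ[ℚ_[p]] K)), Function.Injective ψ → Group.IsNilpotent Γ →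
  (Nat.card Γ).Coprime 6 → (Nat.card Γ).Coprime p → ∃ ε : Fin (Nat.card Γ) → K,
    (∀ i, IsIntegral ℤ_[p] (ε i)) ∧ ∀ i j, i ≠ j → ε i ≠ ε j ∧ IsIntegral ℤ_[p] (ε i - ε j)⁻¹

/-- Many integral elements with invertible differences in the fixed field of `H`. -/
def T_Eps : Prop := ∀ (p : ℕ) [Fact p.Prime] (n c : ℕ) (K : Type) [Field K] [Algebra ℚ_[p] K]
  [Algebra ℤ_[p] K] [IsScalarTower ℤ_[p] ℚ_[p] K] [FiniteDimensional ℚ_[p] K] (G : Type)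
  [Group G] (H : Subgroup G) (φ : G →* (K ≃ₐ[ℚ_[p]] K)), n.Coprime 6 → n.Coprime p → H.Normal →
  Nq c H → (∀ a : G, a ^ n ∈ H) → ∃ (k : ℕ) (t : ℕ → G) (ε : Fin k → K),
    (∀ a, ∃ i < k, ∀ x, (∀ h ∈ H, φ h x = x) → φ a x = φ (t i) x) ∧
    (∀ i, (∀ h ∈ H, φ h (ε i) = ε i) ∧ IsIntegral ℤ_[p] (ε i)) ∧
    ∀ i j, i ≠ j → ε i ≠ ε j ∧ IsIntegral ℤ_[p] (ε i - ε j)⁻¹

/-- A tame element that fixes the fixed field of `H` centralises the field. -/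
def T_Gal : Prop := ∀ (p : ℕ) [Fact p.Prime] (n : ℕ) (V : Type) [AddCommGroup V]
  [Module ℚ_[p] V] [Module ℤ_[p] V] [IsScalarTower ℤ_[p] ℚ_[p] V] [FiniteDimensional ℚ_[p] V]
  (G : Type) [Group G] (H : Subgroup G) (ρ : G →* Module.End ℚ_[p] V) (Λ : Submodule ℤ_[p] V)
  (K : Type) [Field K] [Algebra ℚ_[p] K] [FiniteDimensional ℚ_[p] K]
  (ι : K →ₐ[ℚ_[p]] Module.End ℚ_[p] V) (φ : G →* (K ≃ₐ[ℚ_[p]] K)) (b : G), n.Coprime p →
  Act p H ρ Λ → (∀ a c, ρ a * ι c = ι (φ a c) * ρ a) → b ^ n = 1 →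
  (∀ x, (∀ h ∈ H, φ h x = x) → φ b x = x) → ∀ c, ρ b * ι c = ι c * ρ b

def T_Field : Prop := ∀ (p : ℕ) [Fact p.Prime] (n c : ℕ) (V : Type) [AddCommGroup V]
  [Module ℚ_[p] V] [Module ℤ_[p] V] [IsScalarTower ℤ_[p] ℚ_[p] V] [FiniteDimensional ℚ_[p] V]
  (G : Type) [Group G] (H : Subgroup G) (ρ : G →* Module.End ℚ_[p] V) (Λ : Submodule ℤ_[p] V)
  (K : Type) [Field K] [Algebra ℚ_[p] K] [FiniteDimensional ℚ_[p] K]
  (ι : K →ₐ[ℚ_[p]] Module.End ℚ_[p] V) (φ : G →* (K ≃ₐ[ℚ_[p]] K)) (W : Submodule ℚ_[p] V),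
  n.Coprime 6 → n.Coprime p → Nq c H → (∀ a : G, a ^ n ∈ H) → Act p H ρ Λ →
  (∀ a c, ρ a * ι c = ι (φ a c) * ρ a) → (∀ c, ∀ v ∈ W, ι c v ∈ W) → (∀ v, ∃ a, ρ a v ∈ W) →
  (∀ a, (∀ x, (∀ h ∈ H, φ h x = x) → φ a x = x) →
    ∃ s, ∃ h ∈ H, a = s * h ∧ ∀ v, ρ s v ∈ W → v ∈ W) → W = ⊤

/-! ### Lie algebras over a field of characteristic zero -/

/-- A perfect Lie algebra with a fixed point free automorphism of finite order is zero. -/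
def T_Kre : Prop := ∀ (k d : Type) [Field k] [IsAlgClosed k] [CharZero k] [LieRing d]
  [LieAlgebra k d] [FiniteDimensional k d] (τ : Module.End k d) (n : ℕ), n ≠ 0 → IsAut τ →
  τ ^ n = 1 → (∀ S : Submodule k d, (∀ x y : d, ⁅x, y⁆ ∈ S) → S = ⊤) →
  (∀ y, τ y = y → y = 0) → ∀ y : d, y = 0

def T_Kac2 : Prop := ∀ (k c M : Type) [Field k] [IsAlgClosed k] [CharZero k] [LieRing c]
  [LieAlgebra k c] [FiniteDimensional k c] [AddCommGroup M] [Module k M] [LieRingModule c M]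
  [LieModule k c M] [FiniteDimensional k M] (τ : Module.End k c) (n : ℕ), n ≠ 0 → IsAut τ →
  τ ^ n = 1 → LinearMap.ker (LieModule.traceForm k c M) = ⊥ →
  (∀ y ∈ LieModule.lowerCentralSeries k c c 1, τ y = y → y = 0) → IsLieAbelian c

def T_Kac : Prop := ∀ (k g : Type) [Field k] [IsAlgClosed k] [CharZero k] [LieRing g]
  [LieAlgebra k g] [FiniteDimensional k g] [IsKilling k g] (σ : Module.End k g) (n : ℕ) (x : g),
  n ≠ 0 → IsAut σ → σ ^ n = 1 → σ x = x →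
  (∀ y, σ y = y → finrank k (engel k x) ≤ finrank k (engel k y)) → Reg k x

def T_Root : Prop := ∀ (k ι M N : Type) [Field k] [CharZero k] [Finite ι] [AddCommGroup M]
  [Module k M] [AddCommGroup N] [Module k N] (P : RootPairing ι k M N) [P.IsRootSystem]
  [P.IsCrystallographic] [P.IsReduced] (s : M ≃ₗ[k] M) (π : Equiv.Perm ι) (f : M →+ ℚ) (n : ℕ),
  n.Coprime 6 → π ^ n = 1 → (∀ i, s (P.root i) = P.root (π i)) → (∀ i, f (P.root i) ≠ 0) →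
  (∀ i, f (P.root (π i)) = f (P.root i)) →
  (∀ q ∈ P.invtRootSubmodule, ∀ i, P.root i ∈ q → P.root (π i) ∈ q) → π = 1

def T_Diag : Prop := ∀ (k g : Type) [Field k] [IsAlgClosed k] [CharZero k] [LieRing g]
  [LieAlgebra k g] [FiniteDimensional k g] [IsKilling k g] (σ : Module.End k g) (n : ℕ) (x : g),
  n.Coprime 6 → IsAut σ → σ ^ n = 1 → σ x = x → Reg k x →
  (∀ I : LieIdeal k g, ∀ v ∈ I, σ v ∈ I) → ∀ v ∈ engel k x, σ v = v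

def T_Inner : Prop := ∀ (F g : Type) [Field F] [CharZero F] [LieRing g] [LieAlgebra F g]
  [FiniteDimensional F g] [IsKilling F g] (σ : Module.End F g) (n : ℕ), n.Coprime 6 →
  IsAut σ → σ ^ n = 1 → (∀ c : Module.End F g, Cen c → σ * c = c * σ) →
  ∃ x, Reg F x ∧ ∀ v ∈ engel F x, σ v = v

/-! ### The covering theorem for Lie algebras -/

/-- The standing hypotheses. -/
structure Hyn (p : ℕ) [Fact p.Prime] (n c : ℕ) {g : Type} [LieRing g] [LieAlgebra ℚ_[p] g]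
    [Module ℤ_[p] g] {G : Type} [Group G] (H : Subgroup G) (ρ : G →* Module.End ℚ_[p] g)
    (Λ : Submodule ℤ_[p] g) (u : LieSubalgebra ℚ_[p] g) : Prop where
  six : n.Coprime 6
  cop : n.Coprime p
  nq : Nq c H
  act : Act p H ρ Λ
  tame : Tame n H ρ
  lie : ∀ a (x y : g), ρ a ⁅x, y⁆ = ⁅ρ a x, ρ a y⁆
  cov : ∀ z, ∃ a, ρ a z ∈ u

def T_Simple : Prop := ∀ (p : ℕ) [Fact p.Prime] (n c : ℕ) (g : Type) [LieRing g]
  [LieAlgebra ℚ_[p] g] [Module ℤ_[p] g] [IsScalarTower ℤ_[p] ℚ_[p] g] [FiniteDimensional ℚ_[p] g]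
  [IsSimple ℚ_[p] g] (G : Type) [Group G] (H : Subgroup G) (ρ : G →* Module.End ℚ_[p] g)
  (Λ : Submodule ℤ_[p] g) (u : LieSubalgebra ℚ_[p] g), Hyn p n c H ρ Λ u → u = ⊤

def T_SS : Prop := ∀ (p : ℕ) [Fact p.Prime] (n c : ℕ) (g : Type) [LieRing g]
  [LieAlgebra ℚ_[p] g] [Module ℤ_[p] g] [IsScalarTower ℤ_[p] ℚ_[p] g] [FiniteDimensional ℚ_[p] g]
  [IsKilling ℚ_[p] g] (G : Type) [Group G] (H : Subgroup G) (ρ : G →* Module.End ℚ_[p] g)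
  (Λ : Submodule ℤ_[p] g) (u : LieSubalgebra ℚ_[p] g), Hyn p n c H ρ Λ u → u = ⊤

def T_Lie : Prop := ∀ (p : ℕ) [Fact p.Prime] (n c : ℕ) (g : Type) [LieRing g]
  [LieAlgebra ℚ_[p] g] [Module ℤ_[p] g] [IsScalarTower ℤ_[p] ℚ_[p] g] [FiniteDimensional ℚ_[p] g]
  (G : Type) [Group G] (H : Subgroup G) (ρ : G →* Module.End ℚ_[p] g)
  (Λ : Submodule ℤ_[p] g) (u : LieSubalgebra ℚ_[p] g) (T : Finset G), Hyn p n c H ρ Λ u →
  (∀ a, ∃ t ∈ T, ∀ I : LieIdeal ℚ_[p] g, ∀ v ∈ I, ρ (t⁻¹ * a) v ∈ I) → u = ⊤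

section Hyn

variable {p n c : ℕ} [Fact p.Prime] {g : Type} [LieRing g] [LieAlgebra ℚ_[p] g] [Module ℤ_[p] g]
  {G : Type} [Group G] {H : Subgroup G} {ρ : G →* Module.End ℚ_[p] g}
  {Λ : Submodule ℤ_[p] g} {u : LieSubalgebra ℚ_[p] g}

theorem Hyn.aut (h : Hyn p n c H ρ Λ u) (a : G) : IsAut (ρ a) := ⟨rep_bij ρ a, h.lie a⟩

theorem Hyn.covA (h : Hyn p n c H ρ Λ u) : CovA u := fun z =>
  (h.cov z).imp' (fun a => ρ a) fun a ha => ⟨h.aut a, ha⟩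

/-- Passing to a conjugate of `u`. -/
theorem Hyn.conj (h : Hyn p n c H ρ Λ u) (a : G) : ∃ u' : LieSubalgebra ℚ_[p] g,
    Hyn p n c H ρ Λ u' ∧ ∀ v, v ∈ u' ↔ ρ a v ∈ u := by
  refine ⟨u.comap (h.aut a).equiv.toLieHom, ⟨h.six, h.cop, h.nq, h.act, h.tame, h.lie,
    fun z => ?_⟩, fun v => Iff.rfl⟩
  obtain ⟨b, hb⟩ := h.cov z
  refine ⟨a⁻¹ * b, ?_⟩
  show ρ a (ρ (a⁻¹ * b) z) ∈ u
  rwa [rep_mul, rep_inv_right]

end Hyn

theorem ne_zero_of_six {n : ℕ} (h : n.Coprime 6) : n ≠ 0 := by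
  rintro rfl
  simp at h

end Pool.Agent.P.MP_169bcc_al.BR
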